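import Pool.Agent.H514R4.Stmts

/-! Literal definitions (nilsystems, nilsequences, inverse limits) and further task statements. -/

open scoped Manifold ContDiff Topology

namespace H514N

/-- weak filtered structure seen from the powers of g -/
def WFilt (G : Type) [Group G] [TopologicalSpace G] (Γ : Subgroup G) (k : ℕ) (g : G) : Prop :=
  ∃ (L : Subgroup G) (_ : g ∈ L) (H : ℕ → Subgroup L), H 0 = ⊤ ∧ H 1 = ⊤ ∧ H (k + 1) = ⊥ ∧ Antitone H ∧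
    (∀ i j, ⁅H i, H j⁆ ≤ H (i + j)) ∧ ∃ K : Set G, IsCompact K ∧ ∃ C : ℕ → Set L,
      (∀ i, C i ⊆ (H i : Set L)) ∧ (∀ i, ∀ c ∈ C i, (c : G) ∈ K) ∧
      ∀ i, ∀ x ∈ H i, ∃ c ∈ C i, ((c⁻¹ * x : L) : G) ∈ Γ

/-- basic k-step nilsequence: G a Lie group, nilpotent of class at most k, Γ a discrete cocompact subgroup,
F continuous on G / Γ, ψ n = F (gⁿ x). -/
def BasicNilseq (k : ℕ) (ψ : ℕ → ℂ) : Prop :=
  ∃ (V : Type) (_ : NormedAddCommGroup V) (_ : NormedSpace ℝ V) (_ : FiniteDimensional ℝ V)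
    (G : Type) (_ : Group G) (_ : TopologicalSpace G) (_ : T2Space G) (_ : ChartedSpace V G)
    (_ : LieGroup 𝓘(ℝ, V) ∞ G) (Γ : Subgroup G),
    (⊤ : Subgroup G).lowerCentralSeries k = ⊥ ∧ DiscreteTopology Γ ∧ CompactSpace (G ⧸ Γ) ∧
    ∃ (F : G ⧸ Γ → ℂ) (g : G) (x : G ⧸ Γ), Continuous F ∧ ∀ n : ℕ, ψ n = F (g ^ n • x)

/-- (X, T) is a k-step nilsystem. -/
def IsNilsys (k : ℕ) (X : Type) [TopologicalSpace X] (T : X → X) : Prop :=
  ∃ (V : Type) (_ : NormedAddCommGroup V) (_ : NormedSpace ℝ V) (_ : FiniteDimensional ℝ V)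
    (G : Type) (_ : Group G) (_ : TopologicalSpace G) (_ : T2Space G) (_ : ChartedSpace V G)
    (_ : LieGroup 𝓘(ℝ, V) ∞ G) (Γ : Subgroup G),
    (⊤ : Subgroup G).lowerCentralSeries k = ⊥ ∧ DiscreteTopology Γ ∧ CompactSpace (G ⧸ Γ) ∧
    ∃ (g : G) (e : X ≃ₜ G ⧸ Γ), ∀ x, e (T x) = g • e x

/-- (X, T) is the inverse limit of a sequence of k-step nilsystems with factor maps. -/
def IsInvLim (k : ℕ) (X : Type) [TopologicalSpace X] (T : X → X) : Prop :=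
  ∃ (Y : ℕ → Type) (_ : ∀ i, TopologicalSpace (Y i)) (S : ∀ i, Y i → Y i) (p : ∀ i, Y (i + 1) → Y i),
    (∀ i, IsNilsys k (Y i) (S i)) ∧
    (∀ i, Continuous (p i) ∧ Function.Surjective (p i) ∧ ∀ y, p i (S (i + 1) y) = S i (p i y)) ∧
    ∃ e : X ≃ₜ {y : ∀ i, Y i // ∀ i, p i (y (i + 1)) = y i}, ∀ x i, (e (T x)).1 i = S i ((e x).1 i)

/-- sequences F (Tⁿ x) on inverse limits -/
def InvSeq (k : ℕ) (ψ : ℕ → ℂ) : Prop :=
  ∃ (X : Type) (_ : TopologicalSpace X) (T : X → X) (x : X) (F : X → ℂ),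
    IsInvLim k X T ∧ Continuous F ∧ ∀ n : ℕ, ψ n = F (T^[n] x)

/-- inverse-limit sequences are uniform limits of basic nilsequences -/
def TaskInv1 : Prop := ∀ (k : ℕ) (ψ : ℕ → ℂ), InvSeq k ψ →
  ∀ ε : ℝ, 0 < ε → ∃ ψ', BasicNilseq k ψ' ∧ ∀ n, ‖ψ n - ψ' n‖ ≤ ε

/-- geometric series of bounded basic nilsequences are inverse-limit sequences -/
def TaskInv2 : Prop := ∀ (k : ℕ) (Ψ : ℕ → ℕ → ℂ), 1 ≤ k → (∀ j, BasicNilseq k (Ψ j)) →
  (∀ j n, ‖Ψ j n‖ ≤ 1) → ∀ K : ℂ, InvSeq k (fun n => K * ∑' j, (3 / 4 : ℂ) ^ j * Ψ j n)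

/-- Helper399's task: the weak filtered structure exists for all nilmanifolds -/
def TaskB : Prop := ∀ (G : Type) [Group G] [TopologicalSpace G] [IsTopologicalGroup G] [T2Space G]
  [LocallyCompactSpace G] (Γ : Subgroup G) (k : ℕ), 1 ≤ k → (⊤ : Subgroup G).lowerCentralSeries k = ⊥ →
  DiscreteTopology Γ → CompactSpace (G ⧸ Γ) → ∀ g : G, WFilt G Γ k g

/-- compactness of the model nilmanifold -/
def TaskCpt : Prop := ∀ d : ℕ, CompactSpace (NG d ⧸ NGam d)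

end H514N
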