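import Mathlib

/-! Base definitions for the interpolation-set project (MP_090f02_an, MP_1b26ca_an). -/

open scoped Manifold ContDiff Topology

namespace H514N

/-- `G / Γ` is a filtered nilmanifold of degree `k`: `G` has a filtration of degree `k` all of whose terms
meet `Γ` cocompactly. -/
def FiltNil (G : Type) [Group G] [TopologicalSpace G] (Γ : Subgroup G) (k : ℕ) : Prop :=
  ∃ H : ℕ → Subgroup G, H 0 = ⊤ ∧ H 1 = ⊤ ∧ H (k + 1) = ⊥ ∧ Antitone H ∧
    (∀ i j, ⁅H i, H j⁆ ≤ H (i + j)) ∧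
    ∀ i, ∃ C : Set G, IsCompact C ∧ C ⊆ (H i : Set G) ∧ ∀ x ∈ H i, ∃ c ∈ C, c⁻¹ * x ∈ Γ

/-- rapidly increasing sequence -/
def q (D : ℕ) : ℕ → ℕ
  | 0 => 8 * (D + 1) * (D + 3) * 2 ^ D
  | (t + 1) => 8 * (D + 1) * (D + 3) * 2 ^ D * (q D t) ^ (D + 2)

/-- the universal 2-colouring of finite sets: the bit of the largest element at the code of the rest -/
def phi (S : Finset ℕ) : Bool :=
  Nat.testBit (S.sup id) (∑ r ∈ S.erase (S.sup id), 2 ^ r)

/-- translation matrix: coefficients of p(x + s) from those of p -/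
noncomputable def E (d : ℕ) (s : ℝ) (v : Fin d → ℝ) : Fin d → ℝ :=
  fun j => ∑ i : Fin d, ((Nat.choose i j : ℕ) : ℝ) * s ^ ((i : ℕ) - (j : ℕ)) * v i

lemma E_zero (d : ℕ) (v : Fin d → ℝ) : E d 0 v = v := by
  funext j
  unfold E
  rw [Finset.sum_eq_single j]
  · simp
  · intro i _ hij
    rcases lt_trichotomy (i : ℕ) (j : ℕ) with h | h | h
    · rw [Nat.choose_eq_zero_of_lt h]; simp
    · exact absurd (Fin.ext h) hij
    · rw [zero_pow (by omega)]; simp
  · intro h; exact absurd (Finset.mem_univ _) h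

lemma E_add_right (d : ℕ) (s : ℝ) (v w : Fin d → ℝ) : E d s (v + w) = E d s v + E d s w := by
  funext j
  simp only [E, Pi.add_apply, mul_add, Finset.sum_add_distrib]

lemma E_smul (d : ℕ) (s c : ℝ) (v : Fin d → ℝ) : E d s (c • v) = c • E d s v := by
  funext j
  simp only [E, Pi.smul_apply, smul_eq_mul, Finset.mul_sum]
  exact Finset.sum_congr rfl fun i _ => by ring

lemma E_comp (d : ℕ) (s t : ℝ) (v : Fin d → ℝ) : E d (s + t) v = E d s (E d t v) := by
  funext j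
  simp only [E, Finset.mul_sum]
  rw [Finset.sum_comm]
  refine Finset.sum_congr rfl fun l _ => ?_
  have key : ((Nat.choose l j : ℕ) : ℝ) * (s + t) ^ ((l : ℕ) - (j : ℕ)) =
      ∑ i : Fin d, ((Nat.choose i j : ℕ) : ℝ) * s ^ ((i : ℕ) - (j : ℕ)) *
        (((Nat.choose l i : ℕ) : ℝ) * t ^ ((l : ℕ) - (i : ℕ))) := by
    rw [Fin.sum_univ_eq_sum_range (fun i => ((Nat.choose i j : ℕ) : ℝ) * s ^ (i - (j : ℕ)) *
        (((Nat.choose l i : ℕ) : ℝ) * t ^ ((l : ℕ) - i))) d]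
    rcases lt_or_ge (l : ℕ) (j : ℕ) with h | h
    · rw [Nat.choose_eq_zero_of_lt h]
      simp only [Nat.cast_zero, zero_mul]
      symm
      refine Finset.sum_eq_zero fun i _ => ?_
      rcases lt_or_ge i (j : ℕ) with h1 | h1
      · rw [Nat.choose_eq_zero_of_lt h1]; simp
      · rw [Nat.choose_eq_zero_of_lt (show (l : ℕ) < i by omega)]; simp
    · have hsub : Finset.range d = (Finset.range d) := rfl
      have h2 : ∑ i ∈ Finset.range d, ((Nat.choose i j : ℕ) : ℝ) * s ^ (i - (j : ℕ)) *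
          (((Nat.choose l i : ℕ) : ℝ) * t ^ ((l : ℕ) - i)) =
          ∑ i ∈ Finset.Ico (j : ℕ) ((l : ℕ) + 1), ((Nat.choose i j : ℕ) : ℝ) * s ^ (i - (j : ℕ)) *
          (((Nat.choose l i : ℕ) : ℝ) * t ^ ((l : ℕ) - i)) := by
        symm
        apply Finset.sum_subset
        · intro i hi
          rw [Finset.mem_Ico] at hi
          rw [Finset.mem_range]
          have := l.2
          omega
        · intro i _ hi
          rw [Finset.mem_Ico] at hi
          rcases lt_or_ge i (j : ℕ) with h1 | h1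
          · rw [Nat.choose_eq_zero_of_lt h1]; simp
          · rw [Nat.choose_eq_zero_of_lt (show (l : ℕ) < i by omega)]; simp
      rw [h2, Finset.sum_Ico_eq_sum_range, add_pow, Finset.mul_sum]
      have h3 : (l : ℕ) + 1 - j = (l : ℕ) - j + 1 := by omega
      rw [h3]
      refine Finset.sum_congr rfl fun m hm => ?_
      rw [Finset.mem_range] at hm
      have h4 : (j : ℕ) + m - j = m := by omega
      have h5 : (l : ℕ) - (j + m) = (l : ℕ) - j - m := by omega
      rw [h4, h5]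
      have h6 : Nat.choose l (j + m) * Nat.choose (j + m) j = Nat.choose l j * Nat.choose (l - j) m := by
        have := Nat.choose_mul (n := (l : ℕ)) (k := (j : ℕ) + m) (s := (j : ℕ)) (by omega)
        rw [this, h4]
      have h7 : ((Nat.choose l (j + m) : ℕ) : ℝ) * ((Nat.choose (j + m) j : ℕ) : ℝ) =
          ((Nat.choose l j : ℕ) : ℝ) * ((Nat.choose (l - j) m : ℕ) : ℝ) := by
        exact_mod_cast h6
      linear_combination (-(s ^ m * t ^ ((l : ℕ) - j - m))) * h7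
  rw [key, Finset.sum_mul]
  exact Finset.sum_congr rfl fun i _ => by ring

/-- The group of pairs (s, p), p a real polynomial of degree < d, with (s, p)(s', p') = (s + s', p + p'(· + s)). -/
def NG (d : ℕ) : Type := ℝ × (Fin d → ℝ)

noncomputable instance (d : ℕ) : Group (NG d) where
  mul a b := (a.1 + b.1, a.2 + E d a.1 b.2)
  one := ((0 : ℝ), (0 : Fin d → ℝ))
  inv a := (-a.1, - E d (-a.1) a.2)
  mul_assoc a b c := by
    show ((a.1 + b.1 + c.1, a.2 + E d a.1 b.2 + E d (a.1 + b.1) c.2) : ℝ × (Fin d → ℝ)) =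
      (a.1 + (b.1 + c.1), a.2 + E d a.1 (b.2 + E d b.1 c.2))
    rw [E_add_right, E_comp, add_assoc, add_assoc]
  one_mul a := by
    show ((0 + a.1, 0 + E d 0 a.2) : ℝ × (Fin d → ℝ)) = a
    rw [E_zero, zero_add, zero_add]; rfl
  mul_one a := by
    show ((a.1 + 0, a.2 + E d a.1 0) : ℝ × (Fin d → ℝ)) = a
    have : E d a.1 0 = 0 := by funext j; simp [E]
    rw [this, add_zero, add_zero]; rfl
  inv_mul_cancel a := by
    show ((-a.1 + a.1, - E d (-a.1) a.2 + E d (-a.1) a.2) : ℝ × (Fin d → ℝ)) = (0, 0)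
    rw [neg_add_cancel, neg_add_cancel]

noncomputable instance (d : ℕ) : TopologicalSpace (NG d) :=
  inferInstanceAs (TopologicalSpace (ℝ × (Fin d → ℝ)))

noncomputable instance (d : ℕ) : ChartedSpace (ℝ × (Fin d → ℝ)) (NG d) :=
  inferInstanceAs (ChartedSpace (ℝ × (Fin d → ℝ)) (ℝ × (Fin d → ℝ)))

lemma NG_mul (d : ℕ) (a b : NG d) : a * b = (a.1 + b.1, a.2 + E d a.1 b.2) := rfl
lemma NG_one (d : ℕ) : (1 : NG d) = ((0 : ℝ), (0 : Fin d → ℝ)) := rfl
lemma NG_inv (d : ℕ) (a : NG d) : a⁻¹ = (-a.1, - E d (-a.1) a.2) := rfl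

lemma E_int (d : ℕ) (m : ℤ) (v : Fin d → ℝ) (hv : ∀ j, ∃ n : ℤ, v j = n) (j : Fin d) :
    ∃ n : ℤ, E d m v j = n := by
  choose w hw using hv
  refine ⟨∑ i : Fin d, ((Nat.choose i j : ℕ) : ℤ) * m ^ ((i : ℕ) - (j : ℕ)) * w i, ?_⟩
  unfold E
  push_cast
  exact Finset.sum_congr rfl fun i _ => by rw [hw i]

/-- The lattice of pairs (m, p) with m and all coefficients of p integral. -/
def NGam (d : ℕ) : Subgroup (NG d) where
  carrier := {a | (∃ m : ℤ, a.1 = m) ∧ ∀ j, ∃ m : ℤ, a.2 j = m}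
  one_mem' := ⟨⟨0, by simp [NG_one]⟩, fun j => ⟨0, by simp [NG_one]⟩⟩
  mul_mem' := by
    rintro a b ⟨⟨m, hm⟩, ha⟩ ⟨⟨n, hn⟩, hb⟩
    refine ⟨⟨m + n, by rw [NG_mul]; push_cast; rw [hm, hn]⟩, fun j => ?_⟩
    obtain ⟨x, hx⟩ := ha j
    obtain ⟨y, hy⟩ := E_int d m b.2 hb j
    refine ⟨x + y, ?_⟩
    rw [NG_mul]
    show a.2 j + E d a.1 b.2 j = _
    rw [hx, hm, hy]; push_cast; ring
  inv_mem' := by
    rintro a ⟨⟨m, hm⟩, ha⟩
    refine ⟨⟨-m, by rw [NG_inv]; push_cast; rw [hm]⟩, fun j => ?_⟩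
    obtain ⟨y, hy⟩ := E_int d (-m) a.2 ha j
    refine ⟨-y, ?_⟩
    rw [NG_inv]
    show -(E d (-a.1) a.2 j) = _
    have : (-a.1) = ((-m : ℤ) : ℝ) := by rw [hm]; push_cast; ring
    rw [this, hy]; push_cast; ring

end H514N
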