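import Pool.Agent.H514R4.Stmts

set_option autoImplicit false

namespace H514N

theorem taskDisc : TaskDisc := by
  intro d
  rw [discreteTopology_iff_isOpen_singleton]
  intro x
  have hfst : Continuous (fun y : NG d => y.1) :=
    (continuous_fst : Continuous (fun y : ℝ × (Fin d → ℝ) => y.1))
  have hsnd : Continuous (fun y : NG d => y.2) :=
    (continuous_snd : Continuous (fun y : ℝ × (Fin d → ℝ) => y.2))
  have hU : IsOpen ({y : NG d | |y.1 - x.1.1| < 1} ∩ ⋂ j : Fin d, {y : NG d | |y.2 j - x.1.2 j| < 1}) := by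
    refine IsOpen.inter ?_ (isOpen_iInter_of_finite fun j => ?_)
    · exact isOpen_lt ((hfst.sub continuous_const).abs) continuous_const
    · exact isOpen_lt ((((continuous_apply j).comp hsnd).sub continuous_const).abs) continuous_const
  refine ⟨_, hU, ?_⟩
  have aux : ∀ a b : ℝ, (∃ m : ℤ, a = m) → (∃ m : ℤ, b = m) → |a - b| < 1 → a = b := by
    rintro a b ⟨m, rfl⟩ ⟨n, rfl⟩ h
    have h1 : |((m - n : ℤ) : ℝ)| < 1 := by push_cast; exact h
    have h2 : |m - n| < 1 := by
      have : ((|m - n| : ℤ) : ℝ) < 1 := by rw [Int.cast_abs]; exact h1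
      exact_mod_cast this
    have h3 : m - n = 0 := Int.abs_lt_one_iff.mp h2
    have : m = n := by omega
    rw [this]
  ext y
  simp only [Set.mem_preimage, Set.mem_inter_iff, Set.mem_setOf_eq, Set.mem_iInter,
    Set.mem_singleton_iff]
  constructor
  · rintro ⟨h1, h2⟩
    apply Subtype.ext
    have e1 : y.1.1 = x.1.1 := aux _ _ y.2.1 x.2.1 h1
    have e2 : y.1.2 = x.1.2 := funext fun j => aux _ _ (y.2.2 j) (x.2.2 j) (h2 j)
    exact Prod.ext e1 e2
  · rintro rfl
    refine ⟨by simp, fun j => by simp⟩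

end H514N
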