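import Pool.Agent.H514R4.Stmts

/-! TaskFilt of project H514-NIL: the group NG d has a filtration of degree d. -/

namespace H514N

open scoped Topology commutatorElement

lemma E_fix (d : ℕ) (s : ℝ) (w : Fin d → ℝ) (j : ℕ)
    (hw : ∀ l : Fin d, d + 1 ≤ (l : ℕ) + j → w l = 0) (l : Fin d)
    (hl : d + 1 ≤ (l : ℕ) + (j + 1)) : E d s w l = w l := by
  unfold E
  rw [Finset.sum_eq_single l]
  · simp
  · intro i _ hil
    rcases lt_trichotomy (i : ℕ) (l : ℕ) with h | h | h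
    · rw [Nat.choose_eq_zero_of_lt h]; simp
    · exact absurd (Fin.ext h) hil
    · rw [hw i (by omega)]; simp
  · intro h; exact absurd (Finset.mem_univ _) h

lemma E_keep (d : ℕ) (s : ℝ) (w : Fin d → ℝ) (j : ℕ)
    (hw : ∀ l : Fin d, d + 1 ≤ (l : ℕ) + j → w l = 0) (l : Fin d)
    (hl : d + 1 ≤ (l : ℕ) + j) : E d s w l = 0 := by
  rw [E_fix d s w j hw l (by omega), hw l hl]

lemma E_neg_right (d : ℕ) (s : ℝ) (v : Fin d → ℝ) : E d s (-v) = - E d s v := by
  have h := E_smul d s (-1) v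
  rw [neg_one_smul, neg_one_smul] at h
  exact h

/-- the filtration -/
def HF (d : ℕ) (i : ℕ) : Subgroup (NG d) where
  carrier := {a | (2 ≤ i → a.1 = 0) ∧ ∀ l : Fin d, d + 1 ≤ (l : ℕ) + i → a.2 l = 0}
  one_mem' := ⟨fun _ => rfl, fun l _ => rfl⟩
  mul_mem' := by
    rintro a b ⟨ha1, ha2⟩ ⟨hb1, hb2⟩
    refine ⟨fun h => ?_, fun l hl => ?_⟩
    · show a.1 + b.1 = 0
      rw [ha1 h, hb1 h, add_zero]
    · show a.2 l + E d a.1 b.2 l = 0
      rw [ha2 l hl, E_keep d a.1 b.2 i hb2 l hl, add_zero]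
  inv_mem' := by
    rintro a ⟨ha1, ha2⟩
    refine ⟨fun h => ?_, fun l hl => ?_⟩
    · show -a.1 = 0
      rw [ha1 h, neg_zero]
    · show -(E d (-a.1) a.2 l) = 0
      rw [E_keep d (-a.1) a.2 i ha2 l hl, neg_zero]

lemma mem_HF (d i : ℕ) (a : NG d) :
    a ∈ HF d i ↔ (2 ≤ i → a.1 = 0) ∧ ∀ l : Fin d, d + 1 ≤ (l : ℕ) + i → a.2 l = 0 := Iff.rfl

lemma comm_NG (d : ℕ) (a b : NG d) :
    ⁅a, b⁆ = ((0 : ℝ), (E d a.1 b.2 - b.2) - (E d b.1 a.2 - a.2)) := by
  have h : ⁅a, b⁆ = (a * b) * (b * a)⁻¹ := by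
    rw [commutatorElement_def, mul_inv_rev]; group
  rw [h]
  apply Prod.ext
  · show (a.1 + b.1) + -(b.1 + a.1) = 0
    ring
  · show (a.2 + E d a.1 b.2) + E d (a.1 + b.1) (- E d (-(b.1 + a.1)) (b.2 + E d b.1 a.2)) = _
    rw [E_neg_right, ← E_comp]
    have : a.1 + b.1 + -(b.1 + a.1) = 0 := by ring
    rw [this, E_zero]
    funext l
    show a.2 l + E d a.1 b.2 l + -(b.2 l + E d b.1 a.2 l) = (E d a.1 b.2 l - b.2 l) - (E d b.1 a.2 l - a.2 l)
    ring

lemma contE (d : ℕ) : Continuous (fun p : ℝ × (Fin d → ℝ) => E d p.1 p.2) := by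
  unfold E
  refine continuous_pi fun j => ?_
  refine continuous_finsetSum _ fun i _ => ?_
  fun_prop

theorem taskFilt : TaskFilt := by
  intro d hd
  refine ⟨HF d, ?_, ?_, ?_, ?_, ?_, ?_⟩
  · rw [eq_top_iff]
    intro a _
    refine (mem_HF d 0 a).2 ⟨fun h => by omega, fun l hl => ?_⟩
    have := l.2
    omega
  · rw [eq_top_iff]
    intro a _
    refine (mem_HF d 1 a).2 ⟨fun h => by omega, fun l hl => ?_⟩
    have := l.2
    omega
  · rw [eq_bot_iff]
    intro a ha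
    obtain ⟨h1, h2⟩ := (mem_HF d (d + 1) a).1 ha
    rw [Subgroup.mem_bot, NG_one]
    apply Prod.ext
    · exact h1 (by omega)
    · funext l
      exact h2 l (by omega)
  · intro i j hij a ha
    obtain ⟨h1, h2⟩ := (mem_HF d j a).1 ha
    exact (mem_HF d i a).2 ⟨fun h => h1 (by omega), fun l hl => h2 l (by omega)⟩
  · intro i j
    rw [Subgroup.commutator_le]
    intro a ha b hb
    obtain ⟨ha1, ha2⟩ := (mem_HF d i a).1 ha
    obtain ⟨hb1, hb2⟩ := (mem_HF d j b).1 hb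
    rw [mem_HF, comm_NG]
    refine ⟨fun _ => rfl, fun l hl => ?_⟩
    show (E d a.1 b.2 l - b.2 l) - (E d b.1 a.2 l - a.2 l) = 0
    have e1 : E d a.1 b.2 l - b.2 l = 0 := by
      by_cases hi : 2 ≤ i
      · rw [ha1 hi, E_zero, sub_self]
      · rw [E_fix d a.1 b.2 j hb2 l (by omega), sub_self]
    have e2 : E d b.1 a.2 l - a.2 l = 0 := by
      by_cases hj : 2 ≤ j
      · rw [hb1 hj, E_zero, sub_self]
      · rw [E_fix d b.1 a.2 i ha2 l (by omega), sub_self]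
    rw [e1, e2, sub_zero]
  · intro i
    have hKc : IsCompact (Set.Icc ((0 : ℝ), (fun _ => 0 : Fin d → ℝ)) (1, fun _ => 1) ∩
        {p : ℝ × (Fin d → ℝ) | (2 ≤ i → p.1 = 0) ∧ ∀ l : Fin d, d + 1 ≤ (l : ℕ) + i → p.2 l = 0}) := by
      apply isCompact_Icc.inter_right
      have hS : {p : ℝ × (Fin d → ℝ) | (2 ≤ i → p.1 = 0) ∧
          ∀ l : Fin d, d + 1 ≤ (l : ℕ) + i → p.2 l = 0} =
          {p : ℝ × (Fin d → ℝ) | 2 ≤ i → p.1 = 0} ∩
          ⋂ l : Fin d, {p : ℝ × (Fin d → ℝ) | d + 1 ≤ (l : ℕ) + i → p.2 l = 0} := by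
        ext p
        simp
      rw [hS]
      apply IsClosed.inter
      · by_cases h : 2 ≤ i
        · simp only [h, true_imp_iff]
          exact isClosed_eq continuous_fst continuous_const
        · simp [h]
      · apply isClosed_iInter
        intro l
        by_cases h : d + 1 ≤ (l : ℕ) + i
        · simp only [h, true_imp_iff]
          exact isClosed_eq ((continuous_apply l).comp continuous_snd) continuous_const
        · simp [h]
    have hf : Continuous (fun p : ℝ × (Fin d → ℝ) => ((p.1, E d p.1 p.2) : ℝ × (Fin d → ℝ))) :=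
      continuous_fst.prodMk (contE d)
    have hIm := hKc.image hf
    refine ⟨(fun p : ℝ × (Fin d → ℝ) => ((p.1, E d p.1 p.2) : ℝ × (Fin d → ℝ))) ''
      (Set.Icc ((0 : ℝ), (fun _ => 0 : Fin d → ℝ)) (1, fun _ => 1) ∩
        {p : ℝ × (Fin d → ℝ) | (2 ≤ i → p.1 = 0) ∧ ∀ l : Fin d, d + 1 ≤ (l : ℕ) + i → p.2 l = 0}),
      hIm, ?_, ?_⟩
    · rintro _ ⟨p, ⟨_, hp1, hp2⟩, rfl⟩
      exact (mem_HF d i _).2 ⟨hp1, fun l hl => E_keep d p.1 p.2 i hp2 l hl⟩
    · intro x hx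
      obtain ⟨hx1, hx2⟩ := (mem_HF d i x).1 hx
      refine ⟨_, ⟨(Int.fract x.1, fun l => Int.fract (E d (-Int.fract x.1) x.2 l)), ⟨?_, ?_, ?_⟩, rfl⟩,
        ?_⟩
      · refine ⟨⟨Int.fract_nonneg _, fun l => Int.fract_nonneg _⟩,
          ⟨(Int.fract_lt_one _).le, fun l => (Int.fract_lt_one _).le⟩⟩
      · intro h
        show Int.fract x.1 = 0
        rw [hx1 h, Int.fract_zero]
      · intro l hl
        show Int.fract (E d (-Int.fract x.1) x.2 l) = 0
        rw [E_keep d _ x.2 i hx2 l hl, Int.fract_zero]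
      · refine ⟨⟨⌊x.1⌋, ?_⟩, fun l => ⟨⌊E d (-Int.fract x.1) x.2 l⌋, ?_⟩⟩
        · show -Int.fract x.1 + x.1 = _
          have := Int.fract_add_floor x.1
          linarith
        · show (- E d (-Int.fract x.1) (E d (Int.fract x.1)
            (fun l => Int.fract (E d (-Int.fract x.1) x.2 l)))) l + E d (-Int.fract x.1) x.2 l = _
          rw [← E_comp, neg_add_cancel, E_zero]
          show -Int.fract (E d (-Int.fract x.1) x.2 l) + E d (-Int.fract x.1) x.2 l = _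
          have := Int.fract_add_floor (E d (-Int.fract x.1) x.2 l)
          linarith

end H514N
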