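import Pool.Agent.H514R4.Stmts

/-! The negative direction: no degree-k nilsequence realises the universal colouring. -/

open scoped Topology

namespace H514N

/-- every finite set of finite sets is attained at arbitrarily large indices -/
noncomputable def nu (i : ℕ) : Finset (Finset ℕ) :=
  (Encodable.decode (α := Finset (Finset ℕ)) (Nat.unpair i).1).getD ∅

lemma nu_surj (T : Finset (Finset ℕ)) (L : ℕ) : ∃ i, L ≤ i ∧ nu i = T := by
  refine ⟨Nat.pair (Encodable.encode T) L, Nat.right_le_pair _ _, ?_⟩
  unfold nu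
  rw [Nat.unpair_pair]
  simp

/-- the universal colouring -/
noncomputable def ph (S : Finset ℕ) : Bool := by
  classical
  exact decide (S.erase (S.sup id) ∈ nu (S.sup id))

lemma ph_insert (i : ℕ) (R : Finset ℕ) (h : ∀ r ∈ R, r < i) :
    ph (insert i R) = true ↔ R ∈ nu i := by
  classical
  have h1 : (insert i R).sup id = i := by
    rw [Finset.sup_insert]
    have : R.sup id ≤ i := Finset.sup_le fun r hr => (h r hr).le
    exact sup_eq_left.2 this
  have h2 : i ∉ R := fun hi => lt_irrefl _ (h i hi)
  unfold ph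
  rw [h1, Finset.erase_insert h2]
  simp

/-- lower set -/
def low {k N : ℕ} (b : Fin k → Fin N) : Finset ℕ :=
  Finset.univ.image fun j : Fin k => (j : ℕ) * N + (b j : ℕ)

lemma low_inj {k N : ℕ} (b : Fin k → Fin N) :
    Function.Injective fun j : Fin k => (j : ℕ) * N + (b j : ℕ) := by
  intro j j' h
  have hN : 0 < N := lt_of_le_of_lt (Nat.zero_le _) (b j).2
  have h1 : ((j : ℕ) * N + (b j : ℕ)) / N = j := by
    rw [mul_comm, Nat.mul_add_div hN, Nat.div_eq_of_lt (b j).2, add_zero]
  have h2 : ((j' : ℕ) * N + (b j' : ℕ)) / N = j' := by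
    rw [mul_comm, Nat.mul_add_div hN, Nat.div_eq_of_lt (b j').2, add_zero]
  apply Fin.ext
  rw [← h1, ← h2]
  exact congrArg (· / N) h

lemma low_lt {k N : ℕ} (b : Fin k → Fin N) (r : ℕ) (hr : r ∈ low b) : r < k * N := by
  unfold low at hr
  rw [Finset.mem_image] at hr
  obtain ⟨j, -, rfl⟩ := hr
  have h1 := j.2
  have h2 := (b j).2
  calc (j : ℕ) * N + (b j : ℕ) < (j : ℕ) * N + N := by omega
    _ = (j + 1) * N := by ring
    _ ≤ k * N := Nat.mul_le_mul_right _ h1

lemma low_injective {k N : ℕ} : Function.Injective (low : (Fin k → Fin N) → Finset ℕ) := by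
  intro b b' h
  funext j
  have h1 : (j : ℕ) * N + (b j : ℕ) ∈ low b' := by
    rw [← h]; exact Finset.mem_image_of_mem _ (Finset.mem_univ j)
  unfold low at h1
  rw [Finset.mem_image] at h1
  obtain ⟨j', -, h2⟩ := h1
  have hN : 0 < N := lt_of_le_of_lt (Nat.zero_le _) (b j).2
  have e1 : ((j : ℕ) * N + (b j : ℕ)) / N = j := by
    rw [mul_comm, Nat.mul_add_div hN, Nat.div_eq_of_lt (b j).2, add_zero]
  have e2 : ((j' : ℕ) * N + (b' j' : ℕ)) / N = j' := by
    rw [mul_comm, Nat.mul_add_div hN, Nat.div_eq_of_lt (b' j').2, add_zero]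
  have e3 : j' = j := by
    apply Fin.ext; rw [← e1, ← e2, h2]
  subst e3
  apply Fin.ext
  omega

lemma list_pow {G : Type} [Group G] (g : G) (l : List ℕ) : (l.map fun n => g ^ n).prod = g ^ l.sum := by
  induction l with
  | nil => simp
  | cons a l ih => simp [ih, pow_add]

lemma sub_filter {k : ℕ} (s : List (Fin k)) (h : s.Sublist (List.finRange k)) :
    s = (List.finRange k).filter (fun j => decide (j ∈ s.toFinset)) := by
  have key : ∀ (l s : List (Fin k)), l.Nodup → s.Sublist l →
      s = l.filter (fun j => decide (j ∈ s)) := by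
    intro l s hl hs
    induction hs with
    | slnil => simp
    | cons a hs ih =>
      rename_i s l
      rw [List.nodup_cons] at hl
      have ha : a ∉ s := fun h => hl.1 (hs.subset h)
      rw [List.filter_cons_of_neg (by simpa using ha)]
      exact ih hl.2
    | cons_cons a hs ih =>
      rename_i s l
      rw [List.nodup_cons] at hl
      rw [List.filter_cons_of_pos (by simp)]
      congr 1
      conv_lhs => rw [ih hl.2]
      apply List.filter_congr
      intro x hx
      have : x ≠ a := fun h => hl.1 (h ▸ hx)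
      simp [this]
  have := key _ s (List.nodup_finRange k) h
  conv_lhs => rw [this]
  apply List.filter_congr
  intro x _
  simp

lemma unif_list (hU : TaskU) (G : Type) [Group G] [TopologicalSpace G] [IsTopologicalGroup G]
    (K : Set G) (F : G → ℂ) (M : ℕ) (ε : ℝ) (hK : IsCompact K) (hF : Continuous F) (hε : 0 < ε) :
    ∃ (m : ℕ) (χ : G → Fin m), ∀ X Y : List G, X.length = M → Y.length = M → (∀ x ∈ X, x ∈ K) →
      (∀ y ∈ Y, y ∈ K) → X.map χ = Y.map χ → ‖F X.prod - F Y.prod‖ < ε := by
  obtain ⟨m, χ, h⟩ := hU G K F M ε hK hF hε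
  refine ⟨m, χ, ?_⟩
  intro X Y hX hY hXK hYK hXY
  have h1 : X = List.ofFn (fun i : Fin M => X.get (i.cast hX.symm)) := by
    subst hX
    simp
  have h2 : Y = List.ofFn (fun i : Fin M => Y.get (i.cast hY.symm)) := by
    subst hY
    simp
  rw [h1, h2]
  apply h
  · intro i; exact hXK _ (List.get_mem _ _)
  · intro i; exact hYK _ (List.get_mem _ _)
  · intro i
    have h3 : (X.map χ)[(i : ℕ)]'(by rw [List.length_map, hX]; exact i.2) =
        (Y.map χ)[(i : ℕ)]'(by rw [List.length_map, hY]; exact i.2) := by
      simp only [hXY]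
    rw [List.getElem_map, List.getElem_map] at h3
    simpa using h3

lemma neg_core (hC : TaskC) (hU : TaskU) (hN : TaskCount) (k : ℕ) (hk : 1 ≤ k) (Q : ℕ → ℕ)
    (G : Type) [Group G] [TopologicalSpace G] [IsTopologicalGroup G] (Γ : Subgroup G)
    (hf : FiltNil G Γ k) (F : G → ℂ) (g : G) (hF : Continuous F)
    (hinv : ∀ y, ∀ γ ∈ Γ, F (y * γ) = F y) :
    ¬ ∀ S : Finset ℕ, S.card = k + 1 → ‖F (g ^ (∑ i ∈ S, Q i)) - (if ph S then 1 else 0)‖ ≤ 1 / 3 := by
  classical
  intro hall
  obtain ⟨H, h0, h1, hk1, ha, hc, hCo⟩ := hf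
  choose C c1 c2 c3 using hCo
  obtain ⟨κ, hκ, hP⟩ := hC G H Γ C h0 h1 ha hc c2 c3
  have hκ1 : ∀ l : List G, l.length = k + 1 → κ l = 1 := by
    intro l hl
    have := c2 _ (hκ l)
    rw [hl, hk1] at this
    simpa using this
  let K : Set G := ⋃ i ∈ Finset.range (k + 2), C i
  have hKc : IsCompact K := (Finset.range (k + 2)).isCompact_biUnion fun i _ => c1 i
  have hκK : ∀ l : List G, l.length ≤ k + 1 → κ l ∈ K := by
    intro l hl
    simp only [K, Set.mem_iUnion]
    exact ⟨l.length, Finset.mem_range.2 (by omega), hκ l⟩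
  obtain ⟨m, χ, hχ⟩ := unif_list hU G K F (2 ^ (k + 1)) (1 / 3) hKc hF (by norm_num)
  obtain ⟨N, hN1, hcount⟩ := hN k m hk
  let I : Type := {i : ℕ // k * N ≤ i}
  let fb : (Fin k → Fin N) → Fin k → G := fun b j => g ^ (Q ((j : ℕ) * N + (b j : ℕ)))
  let ρ : I → (Fin k → Fin N) → Bool := fun i b => ph (insert i.1 (low b))
  let V : I → (Fin k → Fin N) → Finset (Fin k) → Fin m := fun i b J =>
    χ (κ (g ^ (Q i.1) :: ((List.finRange k).filter (fun j => decide (j ∈ J))).map (fb b)))
  have hρ : Function.Surjective ρ := by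
    intro p
    let T : Finset (Finset ℕ) := (Finset.univ.filter fun b : Fin k → Fin N => p b = true).image low
    obtain ⟨i, hi, hiT⟩ := nu_surj T (k * N)
    refine ⟨⟨i, hi⟩, ?_⟩
    funext b
    have h2 : ph (insert i (low b)) = true ↔ p b = true := by
      rw [ph_insert i (low b) (fun r hr => lt_of_lt_of_le (low_lt b r hr) hi), hiT]
      simp only [T, Finset.mem_image, Finset.mem_filter, Finset.mem_univ, true_and]
      constructor
      · rintro ⟨b', hb', he⟩
        rw [low_injective he] at hb'
        exact hb'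
      · intro h; exact ⟨b, h, rfl⟩
    show ph (insert i (low b)) = p b
    rw [Bool.eq_iff_iff]
    exact h2
  have hV : ∀ i b b' J, (∀ j ∈ J, b j = b' j) → V i b J = V i b' J := by
    intro i b b' J hJ
    show χ (κ (_ :: _)) = χ (κ (_ :: _))
    have : ((List.finRange k).filter (fun j => decide (j ∈ J))).map (fb b) =
        ((List.finRange k).filter (fun j => decide (j ∈ J))).map (fb b') := by
      apply List.map_congr_left
      intro j hj
      rw [List.mem_filter] at hj
      have hj' : j ∈ J := by simpa using hj.2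
      show g ^ _ = g ^ _
      rw [hJ j hj']
    rw [this]
  obtain ⟨i, i', b, hne, hVe⟩ := hcount I ρ V hρ hV
  let L : List G := (List.finRange k).map (fb b)
  have hLlen : L.length = k := by simp [L]
  have hprod : ∀ i : I, ((g ^ (Q i.1)) :: L).reverse.prod = g ^ (∑ s ∈ insert i.1 (low b), Q s) := by
    intro i
    have hi : i.1 ∉ low b := fun h => absurd (low_lt b _ h) (not_lt.2 i.2)
    rw [Finset.sum_insert hi]
    have hsum : ∑ s ∈ low b, Q s = ((List.finRange k).map fun j : Fin k => Q ((j : ℕ) * N + (b j : ℕ))).sum := by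
      unfold low
      rw [Finset.sum_image fun x _ y _ h => low_inj b h]
      rw [← List.sum_ofFn, List.ofFn_eq_map]
    have hL : L.reverse.prod = g ^ (∑ s ∈ low b, Q s) := by
      have : L = ((List.finRange k).map fun j : Fin k => Q ((j : ℕ) * N + (b j : ℕ))).map fun n => g ^ n := by
        simp only [L, fb, List.map_map]
        rfl
      rw [this, ← List.map_reverse, list_pow, List.sum_reverse, hsum]
    rw [List.reverse_cons, List.prod_append, hL, List.prod_singleton, ← pow_add, add_comm]
  have hval : ∀ i : I, F (g ^ (∑ s ∈ insert i.1 (low b), Q s)) =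
      F ((((g ^ (Q i.1)) :: L).sublists'.map κ).prod) := by
    intro i
    obtain ⟨γ, hγ, he⟩ := hP ((g ^ (Q i.1)) :: L)
    rw [← hprod i, he, hinv _ γ hγ]
  have hcard : ∀ i : I, (insert i.1 (low b)).card = k + 1 := by
    intro i
    have hi : i.1 ∉ low b := fun h => absurd (low_lt b _ h) (not_lt.2 i.2)
    rw [Finset.card_insert_of_notMem hi]
    unfold low
    rw [Finset.card_image_of_injective _ (low_inj b), Finset.card_univ, Fintype.card_fin]
  have hclose : ‖F ((((g ^ (Q i.1)) :: L).sublists'.map κ).prod) -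
      F ((((g ^ (Q i'.1)) :: L).sublists'.map κ).prod)‖ < 1 / 3 := by
    apply hχ
    · rw [List.length_map, List.length_sublists', List.length_cons, hLlen]
    · rw [List.length_map, List.length_sublists', List.length_cons, hLlen]
    · intro x hx
      rw [List.mem_map] at hx
      obtain ⟨l, hl, rfl⟩ := hx
      rw [List.mem_sublists'] at hl
      exact hκK l (by have := hl.length_le; rw [List.length_cons, hLlen] at this; exact this)
    · intro x hx
      rw [List.mem_map] at hx
      obtain ⟨l, hl, rfl⟩ := hx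
      rw [List.mem_sublists'] at hl
      exact hκK l (by have := hl.length_le; rw [List.length_cons, hLlen] at this; exact this)
    · simp only [List.sublists'_cons, List.map_append, List.map_map]
      congr 1
      apply List.map_congr_left
      intro t ht
      rw [List.mem_sublists'] at ht
      show χ (κ (_ :: t)) = χ (κ (_ :: t))
      obtain ⟨s, hs, rfl⟩ := List.sublist_map_iff.1 ht
      by_cases hu : s.toFinset = Finset.univ
      · have hlen : s.length = k := by
          have e1 := sub_filter s hs
          rw [hu] at e1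
          have e2 : (List.finRange k).filter (fun j => decide (j ∈ (Finset.univ : Finset (Fin k)))) =
              List.finRange k := by simp
          rw [e2] at e1
          rw [e1]; simp
        rw [hκ1 _ (by simp [hlen]), hκ1 _ (by simp [hlen])]
      · have := hVe s.toFinset hu
        simp only [V] at this
        rw [← sub_filter s hs] at this
        exact this
  have a1 := hall _ (hcard i)
  have a2 := hall _ (hcard i')
  rw [hval i] at a1
  rw [hval i'] at a2
  have hne' : ph (insert i.1 (low b)) ≠ ph (insert i'.1 (low b)) := hne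
  have h3 : ‖((if ph (insert i.1 (low b)) then 1 else 0 : ℂ)) -
      (if ph (insert i'.1 (low b)) then 1 else 0 : ℂ)‖ = 1 := by
    rcases Bool.eq_false_or_eq_true (ph (insert i.1 (low b))) with e | e <;>
      rcases Bool.eq_false_or_eq_true (ph (insert i'.1 (low b))) with e' | e' <;>
      simp [e, e'] at hne' ⊢
  set A := F ((((g ^ (Q i.1)) :: L).sublists'.map κ).prod)
  set B := F ((((g ^ (Q i'.1)) :: L).sublists'.map κ).prod)
  set u := ((if ph (insert i.1 (low b)) then 1 else 0 : ℂ))
  set v := ((if ph (insert i'.1 (low b)) then 1 else 0 : ℂ))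
  have : ‖u - v‖ ≤ ‖A - u‖ + ‖A - B‖ + ‖B - v‖ := by
    have e : u - v = -(A - u) + (A - B) + (B - v) := by ring
    rw [e]
    refine le_trans (norm_add_le _ _) ?_
    have := norm_add_le (-(A - u)) (A - B)
    rw [norm_neg] at this
    linarith
  rw [h3] at this
  linarith

end H514N
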