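import Pool.Agent.H514R4.Stmts
set_option autoImplicit false

namespace H514N.A

open Finset

/-- the base constant -/
def W (D : ℕ) : ℕ := 8 * (D + 1) * (D + 3) * 2 ^ D

lemma q_zero (D : ℕ) : q D 0 = W D := rfl
lemma q_succ (D t : ℕ) : q D (t + 1) = W D * (q D t) ^ (D + 2) := rfl

lemma W_two (D : ℕ) : 2 ≤ W D := by
  unfold W
  have h1 : 0 < (D + 1) * (D + 3) * 2 ^ D := by positivity
  have h2 : 8 * (D + 1) * (D + 3) * 2 ^ D = 8 * ((D + 1) * (D + 3) * 2 ^ D) := by ring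
  omega

lemma q_pos (D t : ℕ) : 0 < q D t := by
  induction t with
  | zero => have := W_two D; rw [q_zero]; omega
  | succ t ih => rw [q_succ]; have := W_two D; positivity

lemma q_double (D t : ℕ) : 2 * q D t ≤ q D (t + 1) := by
  rw [q_succ]
  have h1 : q D t ≤ (q D t) ^ (D + 2) := Nat.le_self_pow (by omega) _
  exact Nat.mul_le_mul (W_two D) h1

lemma q_sq_dvd (D t : ℕ) : (q D t) ^ 2 ∣ q D (t + 1) := by
  rw [q_succ]
  exact (pow_dvd_pow _ (by omega)).mul_left _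

lemma q_dvd (D s j : ℕ) : q D s ∣ q D (s + j) := by
  induction j with
  | zero => exact dvd_rfl
  | succ j ih =>
    exact ih.trans ((dvd_pow_self _ two_ne_zero).trans (q_sq_dvd D (s + j)))

lemma q_sq_dvd_lt (D : ℕ) {s t : ℕ} (h : s < t) : (q D s) ^ 2 ∣ q D t := by
  obtain ⟨j, rfl⟩ := Nat.exists_eq_add_of_lt h
  have h1 := q_dvd D (s + 1) j
  have h2 : s + 1 + j = s + j + 1 := by ring
  rw [h2] at h1
  exact (q_sq_dvd D s).trans h1

lemma sum_range_le (D t : ℕ) : ∑ i ∈ range (t + 1), q D i ≤ 2 * q D t := by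
  induction t with
  | zero => simp; omega
  | succ t ih =>
    rw [sum_range_succ]
    have := q_double D t
    omega

lemma q_geom (D t s : ℕ) : 2 ^ s * q D t ≤ q D (t + s) := by
  induction s with
  | zero => simp
  | succ s ih =>
    have h1 := q_double D (t + s)
    calc 2 ^ (s + 1) * q D t = 2 * (2 ^ s * q D t) := by ring
      _ ≤ 2 * q D (t + s) := Nat.mul_le_mul_left _ ih
      _ ≤ q D (t + (s + 1)) := h1

lemma pow_bound (D t e : ℕ) (he : e ≤ D) : (∑ i ∈ range t, q D i) ^ e * W D ≤ 2 ^ D * q D t := by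
  have hW := W_two D
  cases t with
  | zero =>
    rw [q_zero]
    simp only [range_zero, sum_empty]
    rcases Nat.eq_zero_or_pos e with h | h
    · subst h
      simp only [pow_zero, one_mul]
      exact Nat.le_mul_of_pos_left _ (by positivity)
    · rw [zero_pow (by omega)]; simp
  | succ t =>
    have h1 := sum_range_le D t
    have hq := q_pos D t
    have h2 : (∑ i ∈ range (t + 1), q D i) ^ e ≤ (2 * q D t) ^ D :=
      (Nat.pow_le_pow_left h1 e).trans (Nat.pow_le_pow_right (by omega) he)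
    rw [q_succ]
    calc (∑ i ∈ range (t + 1), q D i) ^ e * W D ≤ (2 * q D t) ^ D * W D := Nat.mul_le_mul_right _ h2
      _ = 2 ^ D * (W D * q D t ^ D) := by rw [mul_pow]; ring
      _ ≤ 2 ^ D * (W D * q D t ^ (D + 2)) :=
          Nat.mul_le_mul_left _ (Nat.mul_le_mul_left _ (Nat.pow_le_pow_right hq (by omega)))

lemma pow_bound' (D t e : ℕ) (he : e ≤ D) : (2 * q D t) ^ e * W D ≤ 2 ^ D * q D (t + 1) := by
  have hq := q_pos D t
  have h2 : (2 * q D t) ^ e ≤ (2 * q D t) ^ D := Nat.pow_le_pow_right (by omega) he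
  rw [q_succ]
  calc (2 * q D t) ^ e * W D ≤ (2 * q D t) ^ D * W D := Nat.mul_le_mul_right _ h2
    _ = 2 ^ D * (W D * q D t ^ D) := by rw [mul_pow]; ring
    _ ≤ 2 ^ D * (W D * q D t ^ (D + 2)) :=
        Nat.mul_le_mul_left _ (Nat.mul_le_mul_left _ (Nat.pow_le_pow_right hq (by omega)))

lemma binom2 (Q m d : ℕ) : ∃ R : ℕ, (Q + m) ^ (d + 1) = m ^ (d + 1) + (d + 1) * m ^ d * Q + Q ^ 2 * R := by
  induction d with
  | zero => exact ⟨0, by ring⟩
  | succ d ih =>
    obtain ⟨R, hR⟩ := ih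
    refine ⟨(d + 1) * m ^ d + R * (Q + m), ?_⟩
    rw [pow_succ, hR]; ring

/-- the error constant -/
noncomputable def eta (D : ℕ) : ℝ := (D + 3) * 2 ^ D / (W D : ℝ)

lemma eta_eq (D : ℕ) : eta D = 1 / (8 * (D + 1)) := by
  unfold eta W
  push_cast
  field_simp

section step

variable (D d : ℕ) (A : (Finset ℕ → ℝ) → ℝ) (φ : Finset ℕ → ℝ)

/-- target for the induction hypothesis -/
noncomputable def tgt (t : ℕ) (b : ℝ) : Finset ℕ → ℝ :=
  fun S => φ (insert t S) - b * ((∑ i ∈ S, q D i : ℕ) : ℝ) ^ (d + 1)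

/-- digit -/
noncomputable def X (t : ℕ) (b : ℝ) : ℤ :=
  ⌊Int.fract (A (tgt D d φ t b) / (d + 1)) * (q D t : ℝ)⌋

/-- partial sums -/
noncomputable def be : ℕ → ℝ
  | 0 => 0
  | t + 1 => be t + (X D d A φ t (be t) : ℝ) / (q D t : ℝ) ^ 2

lemma be_succ (t : ℕ) : be D d A φ (t + 1) = be D d A φ t +
    (X D d A φ t (be D d A φ t) : ℝ) / (q D t : ℝ) ^ 2 := rfl

lemma X_nonneg (t : ℕ) (b : ℝ) : 0 ≤ X D d A φ t b :=
  Int.floor_nonneg.2 (mul_nonneg (Int.fract_nonneg _) (Nat.cast_nonneg _))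

lemma X_le (t : ℕ) (b : ℝ) : (X D d A φ t b : ℝ) ≤ (q D t : ℝ) := by
  have h1 := Int.floor_le (Int.fract (A (tgt D d φ t b) / (d + 1)) * (q D t : ℝ))
  have h2 : Int.fract (A (tgt D d φ t b) / (d + 1)) * (q D t : ℝ) ≤ 1 * (q D t : ℝ) :=
    mul_le_mul_of_nonneg_right (Int.fract_lt_one _).le (Nat.cast_nonneg _)
  unfold X
  linarith

lemma be_int (t : ℕ) : ∃ b : ℤ, be D d A φ t * (q D t : ℝ) = b := by
  have key : ∀ s t : ℕ, s ≤ t → ∃ b : ℤ, be D d A φ s * (q D t : ℝ) = b := by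
    intro s
    induction s with
    | zero => intro t _; exact ⟨0, by simp [be]⟩
    | succ s ih =>
      intro t hst
      obtain ⟨b, hb⟩ := ih t (by omega)
      obtain ⟨c, hc⟩ := q_sq_dvd_lt D (show s < t by omega)
      refine ⟨b + X D d A φ s (be D d A φ s) * c, ?_⟩
      rw [be_succ, add_mul, hb]
      have hq : (q D s : ℝ) ≠ 0 := by exact_mod_cast (q_pos D s).ne'
      have hc' : (q D t : ℝ) = (q D s : ℝ) ^ 2 * c := by exact_mod_cast hc
      rw [hc']
      push_cast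
      field_simp
  exact key t t le_rfl

/-- the terms of the series -/
noncomputable def tm (t : ℕ) : ℝ := (X D d A φ t (be D d A φ t) : ℝ) / (q D t : ℝ) ^ 2

lemma be_eq (t : ℕ) : be D d A φ t = ∑ s ∈ range t, tm D d A φ s := by
  induction t with
  | zero => simp [be]
  | succ t ih => rw [sum_range_succ, ← ih]; rfl

lemma tm_nonneg (t : ℕ) : 0 ≤ tm D d A φ t := by
  unfold tm
  have : (0 : ℝ) ≤ (X D d A φ t (be D d A φ t) : ℝ) := by exact_mod_cast X_nonneg D d A φ t _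
  positivity

lemma tm_le (t s : ℕ) : tm D d A φ (s + t) ≤ (1 / (q D t : ℝ)) * (1 / 2) ^ s := by
  unfold tm
  have h1 := X_le D d A φ (s + t) (be D d A φ (s + t))
  have hq : (0 : ℝ) < (q D (s + t) : ℝ) := by exact_mod_cast q_pos D (s + t)
  have hq' : (0 : ℝ) < (q D t : ℝ) := by exact_mod_cast q_pos D t
  have h2 : (2 : ℝ) ^ s * (q D t : ℝ) ≤ (q D (s + t) : ℝ) := by
    have := q_geom D t s
    rw [add_comm t s] at this
    exact_mod_cast this
  calc (X D d A φ (s + t) (be D d A φ (s + t)) : ℝ) / (q D (s + t) : ℝ) ^ 2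
      ≤ (q D (s + t) : ℝ) / (q D (s + t) : ℝ) ^ 2 := by gcongr
    _ = 1 / (q D (s + t) : ℝ) := by field_simp
    _ ≤ 1 / ((2 : ℝ) ^ s * (q D t : ℝ)) := by
        apply one_div_le_one_div_of_le (by positivity) h2
    _ = (1 / (q D t : ℝ)) * (1 / 2) ^ s := by
        rw [div_pow, one_pow]; field_simp

lemma tm_summable (t : ℕ) : Summable fun s => tm D d A φ (s + t) := by
  refine Summable.of_nonneg_of_le (fun s => tm_nonneg D d A φ _) (fun s => tm_le D d A φ t s) ?_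
  exact (summable_geometric_of_lt_one (by norm_num) (by norm_num)).mul_left _

lemma tail_le (t : ℕ) : ∑' s, tm D d A φ (s + t) ≤ 2 / (q D t : ℝ) := by
  have h1 : ∑' s, tm D d A φ (s + t) ≤ ∑' s : ℕ, (1 / (q D t : ℝ)) * (1 / 2) ^ s :=
    (tm_summable D d A φ t).tsum_le_tsum (fun s => tm_le D d A φ t s)
      ((summable_geometric_of_lt_one (by norm_num) (by norm_num)).mul_left _)
  rw [tsum_mul_left, tsum_geometric_of_lt_one (by norm_num) (by norm_num)] at h1
  calc _ ≤ _ := h1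
    _ = 2 / (q D t : ℝ) := by ring

lemma tail_nonneg (t : ℕ) : 0 ≤ ∑' s, tm D d A φ (s + t) :=
  tsum_nonneg fun s => tm_nonneg D d A φ _

theorem step (hd : d + 1 ≤ D)
    (hA : ∀ ψ : Finset ℕ → ℝ, ∀ S : Finset ℕ, S.card = d →
      ∃ z : ℤ, |A ψ * ((∑ i ∈ S, q D i : ℕ) : ℝ) ^ d - ψ S - z| ≤ d * eta D) :
    ∃ α : ℝ, ∀ S : Finset ℕ, S.card = d + 1 →
      ∃ z : ℤ, |α * ((∑ i ∈ S, q D i : ℕ) : ℝ) ^ (d + 1) - φ S - z| ≤ (d + 1 : ℕ) * eta D := by
  refine ⟨∑' s, tm D d A φ s, fun S hS => ?_⟩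
  have hne : S.Nonempty := by rw [← card_pos]; omega
  set t := S.max' hne with ht
  set S' := S.erase t with hS'
  have htS : t ∈ S := S.max'_mem hne
  have hins : insert t S' = S := insert_erase htS
  have hnot : t ∉ S' := notMem_erase t S
  have hcard : S'.card = d := by rw [hS', card_erase_of_mem htS, hS]; rfl
  have hsub : S' ⊆ range t := by
    intro i hi
    rw [mem_range]
    have h1 := mem_of_mem_erase hi
    have h2 := ne_of_mem_erase hi
    have h3 := S.le_max' i h1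
    omega
  set m := ∑ i ∈ S', q D i with hm
  have hsum : ∑ i ∈ S, q D i = q D t + m := by
    rw [← hins, sum_insert hnot]
  have hmle : m ≤ ∑ i ∈ range t, q D i := sum_le_sum_of_subset hsub
  have hnle : q D t + m ≤ 2 * q D t := by
    have h1 := sum_range_le D t
    rw [sum_range_succ] at h1
    omega
  obtain ⟨R, hR⟩ := binom2 (q D t) m d
  obtain ⟨b, hb⟩ := be_int D d A φ t
  set B := be D d A φ t with hB
  obtain ⟨z', hz'⟩ := hA (tgt D d φ t B) S' hcard
  set a := A (tgt D d φ t B) with ha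
  set x := X D d A φ t B with hx
  have hxdef : x = ⌊Int.fract (a / (d + 1)) * (q D t : ℝ)⌋ := rfl
  set f := Int.fract (a / (d + 1 : ℝ)) with hf
  set θ := Int.fract (f * (q D t : ℝ)) with hθ
  have hθ0 : 0 ≤ θ := Int.fract_nonneg _
  have hθ1 : θ ≤ 1 := (Int.fract_lt_one _).le
  have hxθ : (x : ℝ) = f * (q D t : ℝ) - θ := by
    rw [hxdef, hθ, Int.fract]; ring
  have hfa : f = a / (d + 1 : ℝ) - ⌊a / (d + 1 : ℝ)⌋ := rfl
  set T := ∑' s, tm D d A φ (s + (t + 1)) with hT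
  have hT0 : 0 ≤ T := tail_nonneg D d A φ (t + 1)
  have hT1 : T ≤ 2 / (q D (t + 1) : ℝ) := tail_le D d A φ (t + 1)
  have hα : ∑' s, tm D d A φ s = B + x / (q D t : ℝ) ^ 2 + T := by
    have h0 : Summable fun s => tm D d A φ s := by simpa using tm_summable D d A φ 0
    rw [← h0.sum_add_tsum_nat_add (t + 1), sum_range_succ, ← be_eq]
    rfl
  have hQ : (0 : ℝ) < (q D t : ℝ) := by exact_mod_cast q_pos D t
  have hQ1 : (0 : ℝ) < (q D (t + 1) : ℝ) := by exact_mod_cast q_pos D (t + 1)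
  have hWp : (0 : ℝ) < (W D : ℝ) := by have := W_two D; exact_mod_cast (by omega : 0 < W D)
  have hRr : ((q D t : ℝ) + m) ^ (d + 1) = (m : ℝ) ^ (d + 1) + (d + 1) * (m : ℝ) ^ d * (q D t : ℝ)
      + (q D t : ℝ) ^ 2 * R := by exact_mod_cast hR
  refine ⟨z' + b * ((d + 1) * m ^ d + q D t * R) + x * R - (d + 1) * m ^ d * ⌊a / (d + 1 : ℝ)⌋, ?_⟩
  rw [hsum, hα]
  have hd1 : (d + 1 : ℝ) ≠ 0 := by positivity
  have htg : tgt D d φ t B S' = φ S - B * (m : ℝ) ^ (d + 1) := by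
    unfold tgt; rw [hins]
  rw [htg] at hz'
  have hmain : (B + x / (q D t : ℝ) ^ 2 + T) * (((q D t + m : ℕ) : ℝ)) ^ (d + 1) - φ S -
      ((z' + b * ((d + 1) * m ^ d + q D t * R) + x * R - (d + 1) * m ^ d * ⌊a / (d + 1 : ℝ)⌋ : ℤ) : ℝ)
      = (a * (m : ℝ) ^ d - (φ S - B * (m : ℝ) ^ (d + 1)) - z')
        + (x : ℝ) * (m : ℝ) ^ (d + 1) / (q D t : ℝ) ^ 2
        - (d + 1) * (m : ℝ) ^ d * θ / (q D t : ℝ)
        + T * ((q D t : ℝ) + m) ^ (d + 1) := by
    push_cast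
    have e1 : (B + x / (q D t : ℝ) ^ 2 + T) * ((q D t : ℝ) + m) ^ (d + 1) =
        B * (m : ℝ) ^ (d + 1) + (B * (q D t : ℝ)) * ((d + 1) * (m : ℝ) ^ d + (q D t : ℝ) * R)
        + ((x : ℝ) * (m : ℝ) ^ (d + 1) / (q D t : ℝ) ^ 2 + (d + 1) * (m : ℝ) ^ d * ((x : ℝ) / (q D t : ℝ)) + x * R)
        + T * ((q D t : ℝ) + m) ^ (d + 1) := by
      rw [add_mul _ T, add_mul B, hRr]
      field_simp
      ring
    rw [e1, hb]
    have e2 : (x : ℝ) / (q D t : ℝ) = f - θ / (q D t : ℝ) := by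
      rw [hxθ]; field_simp
    have e3 : (d + 1) * (m : ℝ) ^ d * ((x : ℝ) / (q D t : ℝ)) =
        a * (m : ℝ) ^ d - (d + 1) * (m : ℝ) ^ d * (⌊a / (d + 1 : ℝ)⌋ : ℝ)
          - (d + 1) * (m : ℝ) ^ d * θ / (q D t : ℝ) := by
      rw [e2, hfa]
      have : (d + 1 : ℝ) * (a / (d + 1)) = a := by field_simp
      linear_combination ((m : ℝ) ^ d) * this
    rw [e3]
    ring
  rw [hmain]
  -- bounds
  have hx0 : (0 : ℝ) ≤ (x : ℝ) := by exact_mod_cast X_nonneg D d A φ t B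
  have hxq : (x : ℝ) ≤ (q D t : ℝ) := X_le D d A φ t B
  have c1 : (m : ℝ) ^ (d + 1) / (q D t : ℝ) ≤ 2 ^ D / (W D : ℝ) := by
    rw [div_le_div_iff₀ hQ hWp]
    have h1 := pow_bound D t (d + 1) hd
    have h2 : m ^ (d + 1) * W D ≤ 2 ^ D * q D t :=
      (Nat.mul_le_mul_right _ (Nat.pow_le_pow_left hmle _)).trans h1
    exact_mod_cast h2
  have c2 : (m : ℝ) ^ d / (q D t : ℝ) ≤ 2 ^ D / (W D : ℝ) := by
    rw [div_le_div_iff₀ hQ hWp]
    have h1 := pow_bound D t d (by omega)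
    have h2 : m ^ d * W D ≤ 2 ^ D * q D t :=
      (Nat.mul_le_mul_right _ (Nat.pow_le_pow_left hmle _)).trans h1
    exact_mod_cast h2
  have c3 : ((q D t : ℝ) + m) ^ (d + 1) / (q D (t + 1) : ℝ) ≤ 2 ^ D / (W D : ℝ) := by
    rw [div_le_div_iff₀ hQ1 hWp]
    have h1 := pow_bound' D t (d + 1) hd
    have h2 : (q D t + m) ^ (d + 1) * W D ≤ 2 ^ D * q D (t + 1) :=
      (Nat.mul_le_mul_right _ (Nat.pow_le_pow_left hnle _)).trans h1
    exact_mod_cast h2
  have m0 : (0 : ℝ) ≤ (m : ℝ) := Nat.cast_nonneg _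
  have b1 : 0 ≤ (x : ℝ) * (m : ℝ) ^ (d + 1) / (q D t : ℝ) ^ 2 := by positivity
  have b1' : (x : ℝ) * (m : ℝ) ^ (d + 1) / (q D t : ℝ) ^ 2 ≤ 2 ^ D / (W D : ℝ) := by
    refine le_trans ?_ c1
    calc (x : ℝ) * (m : ℝ) ^ (d + 1) / (q D t : ℝ) ^ 2
        ≤ (q D t : ℝ) * (m : ℝ) ^ (d + 1) / (q D t : ℝ) ^ 2 := by gcongr
      _ = (m : ℝ) ^ (d + 1) / (q D t : ℝ) := by field_simp
  have b2 : 0 ≤ (d + 1) * (m : ℝ) ^ d * θ / (q D t : ℝ) := by positivity
  have b2' : (d + 1) * (m : ℝ) ^ d * θ / (q D t : ℝ) ≤ D * (2 ^ D / (W D : ℝ)) := by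
    calc (d + 1) * (m : ℝ) ^ d * θ / (q D t : ℝ)
        ≤ (d + 1) * (m : ℝ) ^ d * 1 / (q D t : ℝ) := by gcongr
      _ = (d + 1) * ((m : ℝ) ^ d / (q D t : ℝ)) := by ring
      _ ≤ D * (2 ^ D / (W D : ℝ)) := by
        have : (d + 1 : ℝ) ≤ D := by exact_mod_cast hd
        gcongr
  have b3 : 0 ≤ T * ((q D t : ℝ) + m) ^ (d + 1) := by positivity
  have b3' : T * ((q D t : ℝ) + m) ^ (d + 1) ≤ 2 * (2 ^ D / (W D : ℝ)) := by
    calc T * ((q D t : ℝ) + m) ^ (d + 1) ≤ 2 / (q D (t + 1) : ℝ) * ((q D t : ℝ) + m) ^ (d + 1) := by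
          gcongr
      _ = 2 * (((q D t : ℝ) + m) ^ (d + 1) / (q D (t + 1) : ℝ)) := by ring
      _ ≤ 2 * (2 ^ D / (W D : ℝ)) := by gcongr
  have heta : eta D = (1 + D + 2) * (2 ^ D / (W D : ℝ)) := by unfold eta; ring
  have hDW : 0 ≤ (D : ℝ) * (2 ^ D / (W D : ℝ)) := by positivity
  have hW0 : 0 ≤ (2 ^ D / (W D : ℝ)) := by positivity
  rw [abs_le] at hz' ⊢
  push_cast
  constructor
  · nlinarith [hz'.1]
  · nlinarith [hz'.2]

end step

theorem all (D d : ℕ) (hd : d ≤ D) (φ : Finset ℕ → ℝ) : ∃ α : ℝ, ∀ S : Finset ℕ, S.card = d →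
    ∃ z : ℤ, |α * ((∑ i ∈ S, q D i : ℕ) : ℝ) ^ d - φ S - z| ≤ d * eta D := by
  induction d generalizing φ with
  | zero =>
    refine ⟨φ ∅, fun S hS => ⟨0, ?_⟩⟩
    rw [card_eq_zero] at hS
    subst hS
    simp
  | succ d ih =>
    choose A hA using ih (by omega)
    exact step D d A φ hd hA

end H514N.A

namespace H514N

theorem taskA : TaskA := by
  intro D φ
  obtain ⟨α, hα⟩ := A.all D D le_rfl φ
  refine ⟨α, fun S hS => ?_⟩
  obtain ⟨z, hz⟩ := hα S hS
  refine ⟨z, hz.trans ?_⟩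
  rw [A.eta_eq, mul_one_div, div_le_div_iff₀ (by positivity) (by norm_num)]
  linarith

theorem taskInj_171 : TaskInj := by
  intro D
  have key : ∀ n : ℕ, ∀ S T : Finset ℕ, S ⊆ Finset.range n → T ⊆ Finset.range n →
      ∑ i ∈ S, q D i = ∑ i ∈ T, q D i → S = T := by
    have hlt : ∀ n : ℕ, ∑ i ∈ Finset.range n, q D i < q D n := by
      intro n
      induction n with
      | zero => simpa using A.q_pos D 0
      | succ n ih =>
        rw [Finset.sum_range_succ]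
        have := A.q_double D n
        omega
    intro n
    induction n with
    | zero =>
      intro S T hS hT _
      have h1 : S = ∅ := Finset.subset_empty.1 (by simpa using hS)
      have h2 : T = ∅ := Finset.subset_empty.1 (by simpa using hT)
      rw [h1, h2]
    | succ n ih =>
      intro S T hS hT h
      have hsub : ∀ U : Finset ℕ, U ⊆ Finset.range (n + 1) → U.erase n ⊆ Finset.range n := by
        intro U hU i hi
        have h1 := Finset.mem_range.1 (hU (Finset.mem_of_mem_erase hi))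
        have h2 := Finset.ne_of_mem_erase hi
        rw [Finset.mem_range]; omega
      have hle : ∀ U : Finset ℕ, U ⊆ Finset.range n → ∑ i ∈ U, q D i < q D n := fun U hU =>
        (Finset.sum_le_sum_of_subset hU).trans_lt (hlt n)
      by_cases h1 : n ∈ S <;> by_cases h2 : n ∈ T
      · have e1 := Finset.add_sum_erase S (q D) h1
        have e2 := Finset.add_sum_erase T (q D) h2
        have e3 := ih (S.erase n) (T.erase n) (hsub S hS) (hsub T hT) (by omega)
        rw [← Finset.insert_erase h1, ← Finset.insert_erase h2, e3]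
      · exfalso
        have e1 := Finset.add_sum_erase S (q D) h1
        have e2 := hle T (by rw [← Finset.erase_eq_of_notMem h2]; exact hsub T hT)
        omega
      · exfalso
        have e1 := Finset.add_sum_erase T (q D) h2
        have e2 := hle S (by rw [← Finset.erase_eq_of_notMem h1]; exact hsub S hS)
        omega
      · exact ih S T (by rw [← Finset.erase_eq_of_notMem h1]; exact hsub S hS)
          (by rw [← Finset.erase_eq_of_notMem h2]; exact hsub T hT) h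
  intro S T h
  have h1 : S ⊆ Finset.range ((S ∪ T).sup id + 1) := fun i hi =>
    Finset.mem_range.2 (Nat.lt_succ_of_le (Finset.le_sup (f := id) (Finset.mem_union_left _ hi)))
  have h2 : T ⊆ Finset.range ((S ∪ T).sup id + 1) := fun i hi =>
    Finset.mem_range.2 (Nat.lt_succ_of_le (Finset.le_sup (f := id) (Finset.mem_union_right _ hi)))
  exact key _ S T h1 h2 h

end H514N
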