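import Pool.Agent.H514R4.Stmts

namespace H514N

theorem taskCount : TaskCount := by
  intro k m hk
  obtain ⟨k, rfl⟩ : ∃ k', k = k' + 1 := ⟨k - 1, by omega⟩
  obtain ⟨N, hN⟩ : ∃ N, N = 2 ^ (k + 1) * m := ⟨_, rfl⟩
  refine ⟨N + 1, by omega, ?_⟩
  intro I ρ V hρ hV
  by_contra hcon
  push Not at hcon
  classical
  let j : Finset (Fin (k + 1)) → Fin (k + 1) := fun J => if h : ∃ x, x ∉ J then h.choose else 0
  have hj : ∀ J, J ≠ Finset.univ → j J ∉ J := by
    intro J hJ
    have h : ∃ x, x ∉ J := by
      by_contra h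
      push Not at h
      exact hJ (Finset.eq_univ_iff_forall.2 h)
    have e : j J = h.choose := dif_pos h
    rw [e]
    exact h.choose_spec
  let W : I → Finset (Fin (k + 1)) → (Fin k → Fin (N + 1)) → Fin m :=
    fun i J c => V i ((j J).insertNth (0 : Fin (N + 1)) c) J
  have key : ∀ i i', W i = W i' → ρ i = ρ i' := by
    intro i i' h
    funext b
    by_contra hne
    obtain ⟨J, hJ, hVne⟩ := hcon i i' b hne
    apply hVne
    have e : ∀ i, V i b J = W i J ((j J).removeNth b) := by
      intro i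
      apply hV
      intro x hx
      have hxne : x ≠ j J := fun h => hj J hJ (h ▸ hx)
      obtain ⟨y, hy⟩ := Fin.exists_succAbove_eq hxne
      rw [← hy, Fin.insertNth_apply_succAbove]
      rfl
    rw [e i, e i', h]
  choose f hf using hρ
  have hinj : Function.Injective (fun r => W (f r)) := by
    intro r r' h
    have := key _ _ h
    rwa [hf, hf] at this
  have hc := Fintype.card_le_of_injective _ hinj
  simp only [Fintype.card_pi, Finset.prod_const, Finset.card_univ, Fintype.card_bool,
    Fintype.card_fin, Fintype.card_finset] at hc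
  have h2 : (m ^ (N + 1) ^ k) ^ 2 ^ (k + 1) ≤ 2 ^ (m * (N + 1) ^ k * 2 ^ (k + 1)) := by
    rw [pow_mul, pow_mul]
    exact Nat.pow_le_pow_left (Nat.pow_le_pow_left Nat.lt_two_pow_self.le _) _
  have h3 := (Nat.pow_le_pow_iff_right (by norm_num)).1 (hc.trans h2)
  have h4 : m * (N + 1) ^ k * 2 ^ (k + 1) = N * (N + 1) ^ k := by
    rw [hN]; ring
  rw [h4, pow_succ, mul_comm] at h3
  have h5 : 0 < (N + 1) ^ k := by positivity
  have h6 := Nat.le_of_mul_le_mul_right h3 h5
  omega

end H514N
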