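import Pool.Agent.H514R4.Stmts

set_option autoImplicit false

namespace H514N

/-- the element `(s, v)` of the group -/
def mk420 (d : ℕ) (s : ℝ) (v : Fin d → ℝ) : NG d := ((s, v) : ℝ × (Fin d → ℝ))

lemma mk420_mul (d : ℕ) (s t : ℝ) (v w : Fin d → ℝ) :
    mk420 d s v * mk420 d t w = mk420 d (s + t) (v + E d s w) := rfl

lemma mk420_one (d : ℕ) : mk420 d 0 0 = 1 := rfl

lemma fun420_continuous_E (d : ℕ) (j : Fin d) :
    Continuous fun p : ℝ × (Fin d → ℝ) => E d p.1 p.2 j := by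
  unfold E
  fun_prop

lemma fun420_pow (d : ℕ) (v : Fin d → ℝ) (n : ℕ) :
    (mk420 d 1 v) ^ n = mk420 d n (∑ t ∈ Finset.range n, E d (t : ℝ) v) := by
  induction n with
  | zero =>
    rw [pow_zero, ← mk420_one]
    simp
  | succ n ih =>
    rw [pow_succ, ih, mk420_mul]
    rw [Finset.sum_range_succ]
    push_cast
    rfl

lemma fun420_sum (d : ℕ) (hd : 1 ≤ d) (α : ℝ) (n : ℕ) :
    (∑ t ∈ Finset.range n, E d (t : ℝ) (fun i : Fin d => α * (Nat.choose d i : ℝ))) ⟨0, hd⟩ =
      α * (n : ℝ) ^ d := by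
  rw [Finset.sum_apply]
  induction n with
  | zero => simp; right; omega
  | succ n ih =>
    rw [Finset.sum_range_succ, ih]
    have h1 : E d (n : ℝ) (fun i : Fin d => α * (Nat.choose d i : ℝ)) ⟨0, hd⟩ =
        ∑ i ∈ Finset.range d, α * ((n : ℝ) ^ i * (Nat.choose d i : ℝ)) := by
      rw [← Fin.sum_univ_eq_sum_range (fun i => α * ((n : ℝ) ^ i * (Nat.choose d i : ℝ))) d]
      unfold E
      refine Finset.sum_congr rfl fun i _ => ?_
      simp
      ring
    have h2 : ((n : ℝ) + 1) ^ d = ∑ i ∈ Finset.range d, (n : ℝ) ^ i * (Nat.choose d i : ℝ) +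
        (n : ℝ) ^ d := by
      rw [add_pow, Finset.sum_range_succ]
      simp
    rw [h1, ← Finset.mul_sum]
    push_cast
    rw [h2]
    ring

/-- the function on the group -/
noncomputable def f420 (d : ℕ) (hd : 1 ≤ d) (F : ℝ → ℂ) (a : Fin d → ℝ) (u : ℝ) : ℂ :=
  ((4 * u * (1 - u) : ℝ) : ℂ) * F (E d (1 / 2 - u) a ⟨0, hd⟩)

theorem taskFun : TaskFun := by
  intro d α F hd hF hper
  have hperz : ∀ (x : ℝ) (z : ℤ), F (x + z) = F x := by
    intro x z
    have hp : Function.Periodic F 1 := hper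
    have := hp.int_mul z x
    simpa using this
  refine ⟨fun y => f420 d hd F y.2 (Int.fract (y.1 + 1 / 2)),
    mk420 d 1 (fun i : Fin d => α * (Nat.choose d i : ℝ)), ?_, ?_, ?_⟩
  · have h0 : Continuous fun y : ℝ × (Fin d → ℝ) => f420 d hd F y.2 (Int.fract (y.1 + 1 / 2)) := by
      refine ContinuousOn.comp_fract (f := fun (y : ℝ × (Fin d → ℝ)) u => f420 d hd F y.2 u)
        (s := fun y : ℝ × (Fin d → ℝ) => y.1 + 1 / 2) ?_ ?_ ?_
      · refine Continuous.continuousOn ?_
        have h1 : Continuous fun p : (ℝ × (Fin d → ℝ)) × ℝ =>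
            ((4 * p.2 * (1 - p.2) : ℝ) : ℂ) * F (E d (1 / 2 - p.2) p.1.2 ⟨0, hd⟩) := by
          refine Continuous.mul ?_ ?_
          · refine Complex.continuous_ofReal.comp ?_
            fun_prop
          · refine hF.comp ?_
            exact (fun420_continuous_E d ⟨0, hd⟩).comp
              (((continuous_const.sub continuous_snd)).prodMk
                (continuous_snd.comp continuous_fst))
        exact h1
      · fun_prop
      · intro y
        simp [f420]
    exact h0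
  · intro y γ hγ
    obtain ⟨⟨m, hm⟩, hr⟩ := hγ
    have e0 : ∀ z : ℝ × (Fin d → ℝ), z = mk420 d z.1 z.2 := fun z => rfl
    show f420 d hd F (y.2 + E d y.1 γ.2) (Int.fract (y.1 + γ.1 + 1 / 2)) =
      f420 d hd F y.2 (Int.fract (y.1 + 1 / 2))
    generalize y.1 = s at *
    generalize y.2 = a at *
    rw [hm]
    generalize γ.2 = r at *
    have e1 : Int.fract (s + (m : ℝ) + 1 / 2) = Int.fract (s + 1 / 2) := by
      rw [show s + (m : ℝ) + 1 / 2 = s + 1 / 2 + (m : ℝ) by ring, Int.fract_add_intCast]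
    rw [e1]
    unfold f420
    congr 1
    rw [E_add_right, ← E_comp]
    have e2 : 1 / 2 - Int.fract (s + 1 / 2) + s = ((⌊s + 1 / 2⌋ : ℤ) : ℝ) := by
      have := Int.floor_add_fract (s + 1 / 2)
      linarith
    rw [e2]
    obtain ⟨z, hz⟩ := E_int d ⌊s + 1 / 2⌋ r hr ⟨0, hd⟩
    rw [Pi.add_apply, hz, hperz]
  · intro n
    rw [fun420_pow]
    show f420 d hd F
      (∑ t ∈ Finset.range n, E d (t : ℝ) (fun i : Fin d => α * (Nat.choose d i : ℝ)))
      (Int.fract ((n : ℝ) + 1 / 2)) = _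
    have e1 : Int.fract ((n : ℝ) + 1 / 2) = 1 / 2 := by
      rw [add_comm, Int.fract_add_natCast, Int.fract_eq_self]
      norm_num
    unfold f420
    rw [e1, sub_self, E_zero, fun420_sum d hd]
    norm_num

end H514N
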