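import Pool.Agent.H514R4.Stmts

set_option autoImplicit false

namespace H514N

lemma q_pos (D t : ℕ) : 0 < q D t := by
  induction t with
  | zero => simp only [q]; positivity
  | succ t ih => simp only [q]; positivity

lemma q_two (D t : ℕ) : 2 * q D t ≤ q D (t + 1) := by
  have h := q_pos D t
  have h1 : q D t ≤ (q D t) ^ (D + 2) := Nat.le_self_pow (by omega) _
  have h2 : 2 ≤ 8 * (D + 1) * (D + 3) * 2 ^ D := by
    have h3 : 1 ≤ (D + 1) * (D + 3) * 2 ^ D := Nat.one_le_iff_ne_zero.2 (by positivity)
    calc 2 ≤ 8 * ((D + 1) * (D + 3) * 2 ^ D) := by omega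
      _ = _ := by ring
  calc 2 * q D t ≤ (8 * (D + 1) * (D + 3) * 2 ^ D) * (q D t) ^ (D + 2) := Nat.mul_le_mul h2 h1
    _ = q D (t + 1) := by simp only [q]

lemma q_sum_lt (D t : ℕ) : ∑ s ∈ Finset.range t, q D s < q D t := by
  induction t with
  | zero => simpa using q_pos D 0
  | succ t ih =>
    rw [Finset.sum_range_succ]
    have := q_two D t
    omega

theorem taskInj : TaskInj := by
  intro D
  have key : ∀ n : ℕ, ∀ S S' : Finset ℕ, S ⊆ Finset.range n → S' ⊆ Finset.range n →
      ∑ i ∈ S, q D i = ∑ i ∈ S', q D i → S = S' := by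
    intro n
    induction n with
    | zero =>
      intro S S' hS hS' _
      rw [Finset.range_zero, Finset.subset_empty] at hS hS'
      rw [hS, hS']
    | succ n ih =>
      have hsub : ∀ S : Finset ℕ, S ⊆ Finset.range (n + 1) → S.erase n ⊆ Finset.range n := by
        intro S hS i hi
        rw [Finset.mem_erase] at hi
        have := Finset.mem_range.1 (hS hi.2)
        rw [Finset.mem_range]
        omega
      have hlt : ∀ S S' : Finset ℕ, S' ⊆ Finset.range (n + 1) → n ∈ S → n ∉ S' →
          ∑ i ∈ S', q D i < ∑ i ∈ S, q D i := by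
        intro S S' hS' h1 h2
        have h3 : S' ⊆ Finset.range n := by
          have := hsub S' hS'
          rwa [Finset.erase_eq_of_notMem h2] at this
        calc ∑ i ∈ S', q D i ≤ ∑ i ∈ Finset.range n, q D i :=
              Finset.sum_le_sum_of_subset h3
          _ < q D n := q_sum_lt D n
          _ ≤ ∑ i ∈ S, q D i := Finset.single_le_sum (f := fun i => q D i)
              (fun i _ => Nat.zero_le _) h1
      intro S S' hS hS' hsum
      by_cases h1 : n ∈ S
      · by_cases h2 : n ∈ S'
        · have h3 := ih (S.erase n) (S'.erase n) (hsub S hS) (hsub S' hS') (by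
            have e1 := Finset.add_sum_erase S (fun i => q D i) h1
            have e2 := Finset.add_sum_erase S' (fun i => q D i) h2
            omega)
          rw [← Finset.insert_erase h1, ← Finset.insert_erase h2, h3]
        · exact absurd hsum (ne_of_gt (hlt S S' hS' h1 h2))
      · by_cases h2 : n ∈ S'
        · exact absurd hsum (ne_of_lt (hlt S' S hS h2 h1))
        · have e1 := hsub S hS
          have e2 := hsub S' hS'
          rw [Finset.erase_eq_of_notMem h1] at e1
          rw [Finset.erase_eq_of_notMem h2] at e2
          exact ih S S' e1 e2 hsum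
  intro S S' h
  refine key (max (S.sup id) (S'.sup id) + 1) S S' ?_ ?_ h
  · intro i hi
    have : i ≤ S.sup id := Finset.le_sup (f := id) hi
    rw [Finset.mem_range]
    omega
  · intro i hi
    have : i ≤ S'.sup id := Finset.le_sup (f := id) hi
    rw [Finset.mem_range]
    omega

end H514N
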