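import Pool.Agent.H514R4.Stmts

open scoped Manifold ContDiff Topology

namespace H514N

lemma contDiff_E (d : ℕ) : ContDiff ℝ ∞ (fun p : ℝ × (Fin d → ℝ) => E d p.1 p.2) := by
  rw [contDiff_pi]
  intro j
  unfold E
  refine ContDiff.sum fun i _ => ?_
  refine ContDiff.mul (ContDiff.mul contDiff_const (contDiff_fst.pow _)) ?_
  exact (contDiff_apply ℝ ℝ i).comp contDiff_snd

abbrev VV (d : ℕ) : Type := ℝ × (Fin d → ℝ)

lemma contDiff_mulV (d : ℕ) : ContDiff ℝ ∞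
    (fun p : VV d × VV d => ((p.1.1 + p.2.1, p.1.2 + E d p.1.1 p.2.2) : VV d)) := by
  refine ContDiff.prodMk ?_ ?_
  · exact (contDiff_fst.comp contDiff_fst).add (contDiff_fst.comp contDiff_snd)
  · refine (contDiff_snd.comp contDiff_fst).add ?_
    exact (contDiff_E d).comp ((contDiff_fst.comp contDiff_fst).prodMk (contDiff_snd.comp contDiff_snd))

lemma contDiff_invV (d : ℕ) : ContDiff ℝ ∞
    (fun p : VV d => ((-p.1, - E d (-p.1) p.2) : VV d)) := by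
  refine ContDiff.prodMk contDiff_fst.neg ?_
  exact ((contDiff_E d).comp (contDiff_fst.neg.prodMk contDiff_snd)).neg

lemma contMDiff_of_contDiff₂ {V : Type*} [NormedAddCommGroup V] [NormedSpace ℝ V] {f : V × V → V}
    (hf : ContDiff ℝ ∞ f) : ContMDiff (𝓘(ℝ, V).prod 𝓘(ℝ, V)) 𝓘(ℝ, V) ∞ f := by
  rw [← modelWithCornersSelf_prod, chartedSpaceSelf_prod]
  exact hf.contMDiff

lemma contMDiff_of_contDiff₁ {V : Type*} [NormedAddCommGroup V] [NormedSpace ℝ V] {f : V → V}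
    (hf : ContDiff ℝ ∞ f) : ContMDiff 𝓘(ℝ, V) 𝓘(ℝ, V) ∞ f := hf.contMDiff

theorem taskLie : TaskLie := by
  intro d
  have h1 : IsManifold 𝓘(ℝ, ℝ × (Fin d → ℝ)) ∞ (NG d) :=
    instIsManifoldModelSpace (I := 𝓘(ℝ, ℝ × (Fin d → ℝ))) (n := ∞)
  have h2 : ContMDiffMul 𝓘(ℝ, ℝ × (Fin d → ℝ)) ∞ (NG d) :=
    { contMDiff_mul := contMDiff_of_contDiff₂ (contDiff_mulV d) }
  exact { contMDiff_inv := contMDiff_of_contDiff₁ (contDiff_invV d) }

end H514N
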