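import Pool.Agent.H514R4.Stmts

set_option autoImplicit false

open Filter Topology Uniformity Set

namespace H514N.TU

theorem main (G : Type) [Group G] [TopologicalSpace G] [IsTopologicalGroup G] (K : Set G)
    (F : G → ℂ) (M : ℕ) (ε : ℝ) (hK : IsCompact K) (hF : Continuous F) (hε : 0 < ε) :
    ∃ (m : ℕ) (χ : G → Fin m), ∀ X Y : Fin M → G, (∀ i, X i ∈ K) → (∀ i, Y i ∈ K) →
      (∀ i, χ (X i) = χ (Y i)) → ‖F (List.ofFn X).prod - F (List.ofFn Y).prod‖ < ε := by
  classical
  letI : UniformSpace G := IsTopologicalGroup.rightUniformSpace G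
  let f : (Fin M → G) → ℂ := fun X => F (List.ofFn X).prod
  have hp : Continuous fun X : Fin M → G => (List.ofFn X).prod := by
    have : (fun X : Fin M → G => (List.ofFn X).prod) =
        fun X => ((List.finRange M).map fun i => X i).prod := by
      funext X; rw [List.ofFn_eq_map]
    rw [this]
    exact continuous_list_prod _ fun i _ => continuous_apply i
  have hf : Continuous f := hF.comp hp
  have hKc : IsCompact (Set.pi univ fun _ : Fin M => K) := isCompact_univ_pi fun _ => hK
  have huc := hKc.uniformContinuousOn_of_continuous hf.continuousOn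
  have h1 := huc (Metric.dist_mem_uniformity hε)
  rw [mem_map, mem_inf_principal, Pi.uniformity] at h1
  rw [Filter.mem_iInf_of_finite] at h1
  obtain ⟨V, hV, hVs⟩ := h1
  choose U hU hUV using fun i => mem_comap.1 (hV i)
  have hU' : (⋂ i, U i) ∈ 𝓤 G := Filter.iInter_mem.2 hU
  obtain ⟨W, hW, hWs, hWU⟩ := comp_symm_mem_uniformity_sets hU'
  obtain ⟨t, -, htf, htK⟩ := hK.totallyBounded.exists_subset hW
  have hex : ∀ x ∈ K, ∃ y, y ∈ htf.toFinset ∧ (x, y) ∈ W := by
    intro x hx
    have := htK hx
    rw [mem_iUnion₂] at this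
    obtain ⟨y, hy, hxy⟩ := this
    exact ⟨y, htf.mem_toFinset.2 hy, hxy⟩
  let s := htf.toFinset
  let χ : G → Fin (s.card + 1) := fun x =>
    if h : ∃ y, y ∈ s ∧ (x, y) ∈ W then Fin.castSucc (s.equivFin ⟨h.choose, h.choose_spec.1⟩)
    else Fin.last _
  refine ⟨s.card + 1, χ, fun X Y hX hY hXY => ?_⟩
  have hmem : ∀ i, (X i, Y i) ∈ ⋂ i, U i := by
    intro i
    have hx := hex _ (hX i)
    have hy := hex _ (hY i)
    have e := hXY i
    simp only [χ] at e
    rw [dif_pos hx, dif_pos hy] at e
    have e2 := Fin.castSucc_injective _ e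
    have e3 := s.equivFin.injective e2
    have e4 : hx.choose = hy.choose := congrArg Subtype.val e3
    apply hWU
    refine ⟨hx.choose, hx.choose_spec.2, ?_⟩
    rw [e4]
    exact hWs.symm _ _ hy.choose_spec.2
  have hfin : (X, Y) ∈ ⋂ i, V i := by
    rw [mem_iInter]
    intro i
    apply hUV i
    exact mem_iInter.1 (hmem i) i
  rw [← hVs] at hfin
  have h2 := hfin ⟨by simpa using hX, by simpa using hY⟩
  have h3 : dist (f X) (f Y) < ε := h2
  rwa [dist_eq_norm] at h3

end H514N.TU

namespace H514N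

theorem taskU : TaskU := by
  intro G _ _ _ K F M ε hK hF hε
  exact TU.main G K F M ε hK hF hε

end H514N
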