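import Pool.Agent.H514R4.PosB
import Pool.Agent.H514R4.NegA
import Pool.Agent.H440N.TaskC
import Pool.Agent.H514R4.Disc
import Pool.Agent.H514R4.FiltH244
import Pool.Agent.H514R4.TaskAFile
import Pool.Agent.H514R4.TaskCount
import Pool.Agent.H514R4.TaskFun
import Pool.Agent.H514R4.TaskInj
import Pool.Agent.H514R4.TaskLie
import Pool.Agent.H514R4.TaskU

/-! Interpolation sets for nilsequences: assembly. -/

open scoped commutatorElement

namespace H514N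

/-- uniform limits of basic nilsequences on topological filtered nilmanifolds of degree k -/
def NilTop (k : ℕ) (ψ : ℕ → ℂ) : Prop :=
  ∀ ε : ℝ, 0 < ε → ∃ ψ' : ℕ → ℂ, BasicTop k ψ' ∧ ∀ n, ‖ψ n - ψ' n‖ ≤ ε

lemma neg_basic (k : ℕ) (hk : 1 ≤ k) (Q : ℕ → ℕ) (ψ : ℕ → ℂ) (h : BasicTop k ψ) :
    ¬ ∀ S : Finset ℕ, S.card = k + 1 → ‖ψ (∑ i ∈ S, Q i) - (if ph S then 1 else 0)‖ ≤ 1 / 3 := by
  obtain ⟨G, iG, iT, iTG, Γ, hf, F, g, x, hF, hinv, he⟩ := h
  obtain ⟨H, h0, h1, hk1, ha, hc, hCo⟩ := hf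
  have hnorm : ∀ i (y : G), y ∈ H i → x⁻¹ * y * x ∈ H i := by
    intro i y hy
    have h2 : ⁅x⁻¹, y⁆ ∈ H i := by
      have := hc 0 i
      rw [zero_add] at this
      exact this (Subgroup.commutator_mem_commutator (h0 ▸ Subgroup.mem_top _) hy)
    have h3 : x⁻¹ * y * x = ⁅x⁻¹, y⁆ * y := by
      rw [commutatorElement_def]; group
    rw [h3]
    exact (H i).mul_mem h2 hy
  have hnorm' : ∀ i (y : G), y ∈ H i → x * y * x⁻¹ ∈ H i := by
    intro i y hy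
    have h2 : ⁅x, y⁆ ∈ H i := by
      have := hc 0 i
      rw [zero_add] at this
      exact this (Subgroup.commutator_mem_commutator (h0 ▸ Subgroup.mem_top _) hy)
    have h3 : x * y * x⁻¹ = ⁅x, y⁆ * y := by
      rw [commutatorElement_def]; group
    rw [h3]
    exact (H i).mul_mem h2 hy
  have hf' : FiltNil G (Γ.comap (MulAut.conj x⁻¹).toMonoidHom) k := by
    refine ⟨H, h0, h1, hk1, ha, hc, ?_⟩
    intro i
    obtain ⟨C, c1, c2, c3⟩ := hCo i
    refine ⟨(fun y => x * y * x⁻¹) '' C, c1.image (by fun_prop), ?_, ?_⟩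
    · rintro _ ⟨y, hy, rfl⟩
      exact hnorm' i y (c2 hy)
    · intro y hy
      obtain ⟨c, hc, hc'⟩ := c3 _ (hnorm i y hy)
      refine ⟨x * c * x⁻¹, ⟨c, hc, rfl⟩, ?_⟩
      rw [Subgroup.mem_comap]
      show x⁻¹ * ((x * c * x⁻¹)⁻¹ * y) * x⁻¹⁻¹ ∈ Γ
      have : x⁻¹ * ((x * c * x⁻¹)⁻¹ * y) * x⁻¹⁻¹ = c⁻¹ * (x⁻¹ * y * x) := by group
      rw [this]; exact hc'
  have := neg_core taskC taskU taskCount k hk Q G _ hf' (fun y => F (y * x)) g (by fun_prop) ?_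
  · intro hall
    apply this
    intro S hS
    have := hall S hS
    rw [he] at this
    exact this
  · intro y γ hγ
    rw [Subgroup.mem_comap] at hγ
    have hγ' : x⁻¹ * γ * x ∈ Γ := by simpa using hγ
    show F (y * γ * x) = F (y * x)
    have : y * γ * x = y * x * (x⁻¹ * γ * x) := by group
    rw [this, hinv _ _ hγ']

theorem main (k : ℕ) (hk : 1 ≤ k) : ∃ S : Set ℕ,
    (∀ f : ℕ → ℂ, (∃ C : ℝ, ∀ n ∈ S, ‖f n‖ ≤ C) → ∃ ψ, NilLie (k + 1) ψ ∧ ∀ n ∈ S, ψ n = f n) ∧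
    ∃ f : ℕ → ℂ, (∀ n, f n = 0 ∨ f n = 1) ∧ ∀ ψ, NilTop k ψ → ∃ n ∈ S, ψ n ≠ f n := by
  classical
  refine ⟨ES (k + 1), ?_, ?_⟩
  · rintro f ⟨C, hC⟩
    exact interp taskA taskLie taskFilt taskDisc taskFun (k + 1) (by omega) f C hC
  · let f : ℕ → ℂ := fun n => if h : ∃ S : Finset ℕ, n = ∑ i ∈ S, q (k + 1) i then
      (if ph h.choose then 1 else 0) else 0
    have hfS : ∀ S : Finset ℕ, f (∑ i ∈ S, q (k + 1) i) = if ph S then 1 else 0 := by
      intro S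
      have hex : ∃ T : Finset ℕ, ∑ i ∈ S, q (k + 1) i = ∑ i ∈ T, q (k + 1) i := ⟨S, rfl⟩
      have h2 : hex.choose = S := (taskInj (k + 1) hex.choose_spec).symm
      show (if h : ∃ T : Finset ℕ, ∑ i ∈ S, q (k + 1) i = ∑ i ∈ T, q (k + 1) i then
        (if ph h.choose then (1 : ℂ) else 0) else 0) = _
      rw [dif_pos hex, h2]
    refine ⟨f, ?_, ?_⟩
    · intro n
      show (if h : ∃ S : Finset ℕ, n = ∑ i ∈ S, q (k + 1) i then
        (if ph h.choose then (1 : ℂ) else 0) else 0) = 0 ∨ (if h : ∃ S : Finset ℕ, n = ∑ i ∈ S, q (k + 1) i then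
        (if ph h.choose then (1 : ℂ) else 0) else 0) = 1
      split_ifs <;> simp
    · intro ψ hψ
      by_contra hcon
      push Not at hcon
      obtain ⟨ψ', hb, hd⟩ := hψ (1 / 3) (by norm_num)
      refine neg_basic k hk (q (k + 1)) ψ' hb ?_
      intro S hS
      have h1 := hcon (∑ i ∈ S, q (k + 1) i) ⟨S, hS, rfl⟩
      rw [hfS S] at h1
      rw [← h1, norm_sub_rev]
      exact hd _

end H514N
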