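import Pool.Agent.H514R4.Lit
import Pool.Agent.H514R4.NegA

/-! The negative direction for the weak filtered structure. -/

open scoped Topology

namespace H514N

lemma neg_coreW (hC : TaskC) (hU : TaskU) (hN : TaskCount) (k : ℕ) (hk : 1 ≤ k) (Q : ℕ → ℕ)
    (G : Type) [Group G] [TopologicalSpace G] [IsTopologicalGroup G] (Γ : Subgroup G)
    (F : G → ℂ) (g : G) (hf : WFilt G Γ k g) (hF : Continuous F)
    (hinv : ∀ y, ∀ γ ∈ Γ, F (y * γ) = F y) :
    ¬ ∀ S : Finset ℕ, S.card = k + 1 → ‖F (g ^ (∑ i ∈ S, Q i)) - (if ph S then 1 else 0)‖ ≤ 1 / 3 := by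
  classical
  intro hall
  obtain ⟨L', hg, H, h0, h1, hk1, ha, hc, K, hKc, C, c2, cK, c3⟩ := hf
  obtain ⟨κ, hκ, hP⟩ := hC L' H (Γ.comap L'.subtype) C h0 h1 ha hc c2
    (fun i x hx => by obtain ⟨c, h, h'⟩ := c3 i x hx; exact ⟨c, h, h'⟩)
  have hκ1 : ∀ l : List L', l.length = k + 1 → κ l = 1 := by
    intro l hl
    have := c2 _ (hκ l)
    rw [hl, hk1] at this
    simpa using this
  let gl : L' := ⟨g, hg⟩
  let κ' : List L' → G := fun l => (κ l : G)
  have hκK : ∀ l : List L', κ' l ∈ K := fun l => cK _ _ (hκ l)
  obtain ⟨m, χ, hχ⟩ := unif_list hU G K F (2 ^ (k + 1)) (1 / 3) hKc hF (by norm_num)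
  obtain ⟨N, hN1, hcount⟩ := hN k m hk
  let I : Type := {i : ℕ // k * N ≤ i}
  let fb : (Fin k → Fin N) → Fin k → L' := fun b j => gl ^ (Q ((j : ℕ) * N + (b j : ℕ)))
  let ρ : I → (Fin k → Fin N) → Bool := fun i b => ph (insert i.1 (low b))
  let V : I → (Fin k → Fin N) → Finset (Fin k) → Fin m := fun i b J =>
    χ (κ' (gl ^ (Q i.1) :: ((List.finRange k).filter (fun j => decide (j ∈ J))).map (fb b)))
  have hρ : Function.Surjective ρ := by
    intro p
    let T : Finset (Finset ℕ) := (Finset.univ.filter fun b : Fin k → Fin N => p b = true).image low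
    obtain ⟨i, hi, hiT⟩ := nu_surj T (k * N)
    refine ⟨⟨i, hi⟩, ?_⟩
    funext b
    have h2 : ph (insert i (low b)) = true ↔ p b = true := by
      rw [ph_insert i (low b) (fun r hr => lt_of_lt_of_le (low_lt b r hr) hi), hiT]
      simp only [T, Finset.mem_image, Finset.mem_filter, Finset.mem_univ, true_and]
      constructor
      · rintro ⟨b', hb', he⟩
        rw [low_injective he] at hb'
        exact hb'
      · intro h; exact ⟨b, h, rfl⟩
    show ph (insert i (low b)) = p b
    rw [Bool.eq_iff_iff]
    exact h2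
  have hV : ∀ i b b' J, (∀ j ∈ J, b j = b' j) → V i b J = V i b' J := by
    intro i b b' J hJ
    show χ (κ' (_ :: _)) = χ (κ' (_ :: _))
    have : ((List.finRange k).filter (fun j => decide (j ∈ J))).map (fb b) =
        ((List.finRange k).filter (fun j => decide (j ∈ J))).map (fb b') := by
      apply List.map_congr_left
      intro j hj
      rw [List.mem_filter] at hj
      have hj' : j ∈ J := by simpa using hj.2
      show gl ^ _ = gl ^ _
      rw [hJ j hj']
    rw [this]
  obtain ⟨i, i', b, hne, hVe⟩ := hcount I ρ V hρ hV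
  let L : List L' := (List.finRange k).map (fb b)
  have hLlen : L.length = k := by simp [L]
  have hprod : ∀ i : I, ((gl ^ (Q i.1)) :: L).reverse.prod = gl ^ (∑ s ∈ insert i.1 (low b), Q s) := by
    intro i
    have hi : i.1 ∉ low b := fun h => absurd (low_lt b _ h) (not_lt.2 i.2)
    rw [Finset.sum_insert hi]
    have hsum : ∑ s ∈ low b, Q s = ((List.finRange k).map fun j : Fin k => Q ((j : ℕ) * N + (b j : ℕ))).sum := by
      unfold low
      rw [Finset.sum_image fun x _ y _ h => low_inj b h]
      rw [← List.sum_ofFn, List.ofFn_eq_map]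
    have hL : L.reverse.prod = gl ^ (∑ s ∈ low b, Q s) := by
      have : L = ((List.finRange k).map fun j : Fin k => Q ((j : ℕ) * N + (b j : ℕ))).map fun n => gl ^ n := by
        simp only [L, fb, List.map_map]
        rfl
      rw [this, ← List.map_reverse, list_pow, List.sum_reverse, hsum]
    rw [List.reverse_cons, List.prod_append, hL, List.prod_singleton, ← pow_add, add_comm]
  have hval : ∀ i : I, F (g ^ (∑ s ∈ insert i.1 (low b), Q s)) =
      F ((((gl ^ (Q i.1)) :: L).sublists'.map κ').prod) := by
    intro i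
    obtain ⟨γ, hγ, he⟩ := hP ((gl ^ (Q i.1)) :: L)
    have e1 : (g ^ (∑ s ∈ insert i.1 (low b), Q s) : G) =
        ((gl ^ (∑ s ∈ insert i.1 (low b), Q s) : L') : G) := by simp [gl]
    have e2 : ((((gl ^ (Q i.1)) :: L).sublists'.map κ).prod : L') =
        ((((gl ^ (Q i.1)) :: L).sublists'.map κ').prod : G) := by
      have := map_list_prod L'.subtype (((gl ^ (Q i.1)) :: L).sublists'.map κ)
      rw [List.map_map] at this
      exact this
    rw [e1, ← hprod i, he, Subgroup.coe_mul, hinv _ (γ : G) hγ, e2]
  have hcard : ∀ i : I, (insert i.1 (low b)).card = k + 1 := by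
    intro i
    have hi : i.1 ∉ low b := fun h => absurd (low_lt b _ h) (not_lt.2 i.2)
    rw [Finset.card_insert_of_notMem hi]
    unfold low
    rw [Finset.card_image_of_injective _ (low_inj b), Finset.card_univ, Fintype.card_fin]
  have hclose : ‖F ((((gl ^ (Q i.1)) :: L).sublists'.map κ').prod) -
      F ((((gl ^ (Q i'.1)) :: L).sublists'.map κ').prod)‖ < 1 / 3 := by
    apply hχ
    · rw [List.length_map, List.length_sublists', List.length_cons, hLlen]
    · rw [List.length_map, List.length_sublists', List.length_cons, hLlen]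
    · intro x hx
      rw [List.mem_map] at hx
      obtain ⟨l, hl, rfl⟩ := hx
      exact hκK l
    · intro x hx
      rw [List.mem_map] at hx
      obtain ⟨l, hl, rfl⟩ := hx
      exact hκK l
    · simp only [List.sublists'_cons, List.map_append, List.map_map]
      congr 1
      apply List.map_congr_left
      intro t ht
      rw [List.mem_sublists'] at ht
      show χ (κ' (_ :: t)) = χ (κ' (_ :: t))
      obtain ⟨s, hs, rfl⟩ := List.sublist_map_iff.1 ht
      by_cases hu : s.toFinset = Finset.univ
      · have hlen : s.length = k := by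
          have e1 := sub_filter s hs
          rw [hu] at e1
          have e2 : (List.finRange k).filter (fun j => decide (j ∈ (Finset.univ : Finset (Fin k)))) =
              List.finRange k := by simp
          rw [e2] at e1
          rw [e1]; simp
        show χ ((κ _ : L') : G) = χ ((κ _ : L') : G)
        rw [hκ1 _ (by simp [hlen]), hκ1 _ (by simp [hlen])]
      · have := hVe s.toFinset hu
        simp only [V] at this
        rw [← sub_filter s hs] at this
        exact this
  have a1 := hall _ (hcard i)
  have a2 := hall _ (hcard i')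
  rw [hval i] at a1
  rw [hval i'] at a2
  have hne' : ph (insert i.1 (low b)) ≠ ph (insert i'.1 (low b)) := hne
  have h3 : ‖((if ph (insert i.1 (low b)) then 1 else 0 : ℂ)) -
      (if ph (insert i'.1 (low b)) then 1 else 0 : ℂ)‖ = 1 := by
    rcases Bool.eq_false_or_eq_true (ph (insert i.1 (low b))) with e | e <;>
      rcases Bool.eq_false_or_eq_true (ph (insert i'.1 (low b))) with e' | e' <;>
      simp [e, e'] at hne' ⊢
  set A := F ((((gl ^ (Q i.1)) :: L).sublists'.map κ').prod)
  set B := F ((((gl ^ (Q i'.1)) :: L).sublists'.map κ').prod)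
  set u := ((if ph (insert i.1 (low b)) then 1 else 0 : ℂ))
  set v := ((if ph (insert i'.1 (low b)) then 1 else 0 : ℂ))
  have : ‖u - v‖ ≤ ‖A - u‖ + ‖A - B‖ + ‖B - v‖ := by
    have e : u - v = -(A - u) + (A - B) + (B - v) := by ring
    rw [e]
    refine le_trans (norm_add_le _ _) ?_
    have := norm_add_le (-(A - u)) (A - B)
    rw [norm_neg] at this
    linarith
  rw [h3] at this
  linarith

end H514N
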