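import Pool.Agent.H514R4.Final
import Pool.Agent.H514R4.NegB

/-! Final assembly for the literal definitions. -/

open scoped Manifold ContDiff Topology

namespace H514N

lemma compact_of_filt {G : Type} [Group G] [TopologicalSpace G] [IsTopologicalGroup G] {Γ : Subgroup G}
    {k : ℕ} (h : FiltNil G Γ k) : CompactSpace (G ⧸ Γ) := by
  obtain ⟨H, h0, -, -, -, -, hC⟩ := h
  obtain ⟨C, c1, -, c3⟩ := hC 0
  rw [← isCompact_univ_iff]
  have : (Set.univ : Set (G ⧸ Γ)) = (fun y : G => (y : G ⧸ Γ)) '' C := by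
    symm
    rw [Set.eq_univ_iff_forall]
    intro x
    induction x using QuotientGroup.induction_on with
    | H y =>
      obtain ⟨c, hc, hc'⟩ := c3 y (h0 ▸ Subgroup.mem_top y)
      exact ⟨c, hc, QuotientGroup.eq.2 hc'⟩
  rw [this]
  exact c1.image continuous_quotient_mk'

lemma lit_of_lie {k : ℕ} {ψ : ℕ → ℂ} (h : BasicLie k ψ) : BasicNilseq k ψ := by
  obtain ⟨V, i1, i2, i3, G, j1, j2, j3, j4, j5, Γ, l1, d1, f1, F, g, x, c1, r1, e1⟩ := h
  haveI : IsTopologicalGroup G := topologicalGroup_of_lieGroup 𝓘(ℝ, V) ∞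
  refine ⟨V, i1, i2, i3, G, j1, j2, j3, j4, j5, Γ, l1, d1, compact_of_filt f1,
    fun y => Quotient.liftOn' y F (fun a b hab => ?_), g, (x : G ⧸ Γ), ?_, ?_⟩
  · rw [QuotientGroup.leftRel_apply] at hab
    have := r1 a (a⁻¹ * b) hab
    rw [mul_inv_cancel_left] at this
    exact this.symm
  · exact c1.quotient_liftOn' _
  · intro n
    exact e1 n

/-- literal k-step nilsequences: uniform limits on {1, 2, 3, ...} of basic ones -/
def IsNilseq (k : ℕ) (ψ : ℕ → ℂ) : Prop :=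
  ∀ ε : ℝ, 0 < ε → ∃ ψ' : ℕ → ℂ, BasicNilseq k ψ' ∧ ∀ n, 1 ≤ n → ‖ψ n - ψ' n‖ ≤ ε

lemma q_pos' (D t : ℕ) : 0 < q D t := by
  induction t with
  | zero => unfold q; positivity
  | succ t ih => unfold q; positivity

lemma ES_pos (D : ℕ) (hD : 1 ≤ D) (n : ℕ) (hn : n ∈ ES D) : 1 ≤ n := by
  obtain ⟨S, hS, rfl⟩ := hn
  have hne : S.Nonempty := by
    rw [← Finset.card_pos]; omega
  obtain ⟨i, hi⟩ := hne
  exact le_trans (q_pos' D i) (Finset.single_le_sum (f := fun i => q D i) (fun _ _ => Nat.zero_le _) hi)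

lemma neg_lit (hB : TaskB) (k : ℕ) (hk : 1 ≤ k) (Q : ℕ → ℕ) (ψ : ℕ → ℂ) (h : BasicNilseq k ψ) :
    ¬ ∀ S : Finset ℕ, S.card = k + 1 → ‖ψ (∑ i ∈ S, Q i) - (if ph S then 1 else 0)‖ ≤ 1 / 3 := by
  obtain ⟨V, i1, i2, i3, G, iG, iT, iT2, iC, iL, Γ, hn, hd, hc, F, g, x, hF, he⟩ := h
  haveI : IsTopologicalGroup G := topologicalGroup_of_lieGroup 𝓘(ℝ, V) ∞
  haveI : LocallyCompactSpace G := ChartedSpace.locallyCompactSpace V G
  induction x using QuotientGroup.induction_on with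
  | H x =>
    have hw := hB G Γ k hk hn hd hc (x⁻¹ * g * x)
    have := neg_coreW taskC taskU taskCount k hk Q G Γ (fun y => F ((x * y : G) : G ⧸ Γ)) (x⁻¹ * g * x) hw
      (hF.comp (continuous_quotient_mk'.comp (continuous_const.mul continuous_id))) ?_
    · intro hall
      apply this
      intro S hS
      have h1 := hall S hS
      rw [he] at h1
      have h2 : x * (x⁻¹ * g * x) ^ (∑ i ∈ S, Q i) = g ^ (∑ i ∈ S, Q i) * x := by
        have h3 : x⁻¹ * g * x = MulAut.conj x⁻¹ g := by simp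
        rw [h3, ← map_pow]
        simp [mul_assoc]
      show ‖F ((x * (x⁻¹ * g * x) ^ (∑ i ∈ S, Q i) : G) : G ⧸ Γ) - _‖ ≤ _
      rw [h2]
      exact h1
    · intro y γ hγ
      show F ((x * (y * γ) : G) : G ⧸ Γ) = F ((x * y : G) : G ⧸ Γ)
      congr 1
      rw [← mul_assoc]
      exact (QuotientGroup.mk_mul_of_mem (x * y) hγ)

lemma neg_uniform (hB : TaskB) (k : ℕ) (hk : 1 ≤ k) : ∃ f : ℕ → ℂ, (∀ n, f n = 0 ∨ f n = 1) ∧
    ∀ ψ, IsNilseq k ψ → ∃ n ∈ ES (k + 1), ψ n ≠ f n := by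
  classical
  let f : ℕ → ℂ := fun n => if h : ∃ S : Finset ℕ, n = ∑ i ∈ S, q (k + 1) i then
    (if ph h.choose then 1 else 0) else 0
  have hfS : ∀ S : Finset ℕ, f (∑ i ∈ S, q (k + 1) i) = if ph S then 1 else 0 := by
    intro S
    have hex : ∃ T : Finset ℕ, ∑ i ∈ S, q (k + 1) i = ∑ i ∈ T, q (k + 1) i := ⟨S, rfl⟩
    have h2 : hex.choose = S := (taskInj (k + 1) hex.choose_spec).symm
    show (if h : ∃ T : Finset ℕ, ∑ i ∈ S, q (k + 1) i = ∑ i ∈ T, q (k + 1) i then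
      (if ph h.choose then (1 : ℂ) else 0) else 0) = _
    rw [dif_pos hex, h2]
  refine ⟨f, ?_, ?_⟩
  · intro n
    show (if h : ∃ S : Finset ℕ, n = ∑ i ∈ S, q (k + 1) i then
      (if ph h.choose then (1 : ℂ) else 0) else 0) = 0 ∨ (if h : ∃ S : Finset ℕ, n = ∑ i ∈ S, q (k + 1) i then
      (if ph h.choose then (1 : ℂ) else 0) else 0) = 1
    split_ifs <;> simp
  · intro ψ hψ
    by_contra hcon
    push Not at hcon
    obtain ⟨ψ', hb, hd⟩ := hψ (1 / 3) (by norm_num)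
    refine neg_lit hB k hk (q (k + 1)) ψ' hb ?_
    intro S hS
    have h1 := hcon (∑ i ∈ S, q (k + 1) i) ⟨S, hS, rfl⟩
    rw [hfS S] at h1
    rw [← h1, norm_sub_rev]
    exact hd _ (ES_pos (k + 1) (by omega) _ ⟨S, hS, rfl⟩)

end H514N
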