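import Pool.Agent.H514R4.PosB

/-! Series form of the interpolation. -/

open scoped Manifold ContDiff Topology

namespace H514N

lemma interp_series (hA : TaskA) (hL : TaskLie) (hF : TaskFilt) (hD : TaskDisc) (hX : TaskFun)
    (D : ℕ) (hD1 : 1 ≤ D) (f : ℕ → ℂ) (C : ℝ) (hC : ∀ n ∈ ES D, ‖f n‖ ≤ C) :
    ∃ (Ψ : ℕ → ℕ → ℂ) (K : ℂ), (∀ j, BasicLie D (Ψ j)) ∧ (∀ j n, ‖Ψ j n‖ ≤ 1) ∧
      ∀ n ∈ ES D, K * ∑' j, (3 / 4 : ℂ) ^ j * Ψ j n = f n := by
  choose Ψ hB hN hE using fun f : ℕ → ℂ => approx_step hA hL hF hD hX D hD1 f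
  set K : ℝ := max C 1 with hK
  have hK1 : 1 ≤ K := le_max_right _ _
  have hK0 : (K : ℂ) ≠ 0 := by
    exact_mod_cast (by linarith : K ≠ 0)
  let F : ℕ → (ℕ → ℂ) := fun j => Nat.rec (fun n => f n / K) (fun _ u => fun n => (4 / 3) * (u n - Ψ u n)) j
  have F0 : F 0 = fun n => f n / K := rfl
  have FS : ∀ j, F (j + 1) = fun n => (4 / 3) * (F j n - Ψ (F j) n) := fun j => rfl
  have hbd : ∀ j, ∀ n ∈ ES D, ‖F j n‖ ≤ 1 := by
    intro j
    induction j with
    | zero =>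
      intro n hn
      rw [F0]
      show ‖f n / K‖ ≤ 1
      rw [norm_div, Complex.norm_real, Real.norm_of_nonneg (by linarith), div_le_one (by linarith)]
      exact le_trans (hC n hn) (le_max_left _ _)
    | succ j ih =>
      intro n hn
      rw [FS]
      show ‖(4 / 3 : ℂ) * (F j n - Ψ (F j) n)‖ ≤ 1
      rw [norm_mul]
      have h1 := hE (F j) ih n hn
      have h2 : ‖(4 / 3 : ℂ)‖ = 4 / 3 := by norm_num
      rw [h2]
      linarith
  have hsum : ∀ n J, F 0 n - ∑ j ∈ Finset.range J, (3 / 4 : ℂ) ^ j * Ψ (F j) n = (3 / 4) ^ J * F J n := by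
    intro n J
    induction J with
    | zero => simp
    | succ J ih =>
      rw [Finset.sum_range_succ, ← sub_sub, ih, FS]
      show _ = (3 / 4 : ℂ) ^ (J + 1) * ((4 / 3) * (F J n - Ψ (F J) n))
      ring
  have hsumm : ∀ n, Summable (fun j => (3 / 4 : ℂ) ^ j * Ψ (F j) n) := by
    intro n
    refine Summable.of_norm_bounded (g := fun j => (3 / 4 : ℝ) ^ j)
      (summable_geometric_of_lt_one (by norm_num) (by norm_num)) ?_
    intro j
    rw [norm_mul, norm_pow]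
    have : ‖(3 / 4 : ℂ)‖ = 3 / 4 := by norm_num
    rw [this]
    calc (3 / 4 : ℝ) ^ j * ‖Ψ (F j) n‖ ≤ (3 / 4 : ℝ) ^ j * 1 :=
          mul_le_mul_of_nonneg_left (hN _ _) (by positivity)
      _ = _ := mul_one _
  refine ⟨fun j => Ψ (F j), K, fun j => hB _, fun j n => hN _ n, ?_⟩
  · intro n hn
    have h1 : Filter.Tendsto (fun J => ∑ j ∈ Finset.range J, (3 / 4 : ℂ) ^ j * Ψ (F j) n) Filter.atTop
        (𝓝 (∑' j, (3 / 4 : ℂ) ^ j * Ψ (F j) n)) := (hsumm n).hasSum.tendsto_sum_nat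
    have h2 : Filter.Tendsto (fun J => ∑ j ∈ Finset.range J, (3 / 4 : ℂ) ^ j * Ψ (F j) n) Filter.atTop
        (𝓝 (F 0 n)) := by
      have h3 : ∀ J, ∑ j ∈ Finset.range J, (3 / 4 : ℂ) ^ j * Ψ (F j) n = F 0 n - (3 / 4) ^ J * F J n := by
        intro J; rw [← hsum n J]; ring
      simp_rw [h3]
      have h4 : Filter.Tendsto (fun J => (3 / 4 : ℂ) ^ J * F J n) Filter.atTop (𝓝 0) := by
        rw [tendsto_zero_iff_norm_tendsto_zero]
        refine squeeze_zero (fun _ => norm_nonneg _) (g := fun J => (3 / 4 : ℝ) ^ J) ?_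
          (tendsto_pow_atTop_nhds_zero_of_lt_one (by norm_num) (by norm_num))
        intro J
        rw [norm_mul, norm_pow]
        have : ‖(3 / 4 : ℂ)‖ = 3 / 4 := by norm_num
        rw [this]
        calc (3 / 4 : ℝ) ^ J * ‖F J n‖ ≤ (3 / 4 : ℝ) ^ J * 1 :=
              mul_le_mul_of_nonneg_left (hbd J n hn) (by positivity)
          _ = _ := mul_one _
      simpa using tendsto_const_nhds.sub h4
    have h5 := tendsto_nhds_unique h1 h2
    show (K : ℂ) * _ = f n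
    rw [h5, F0]
    field_simp

end H514N
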