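import Pool.Agent.H514R4.Final2
import Pool.Agent.H514R4.PosC

/-! Final assembly: both problems. -/

open scoped Manifold ContDiff Topology

namespace H514N

/-- E is a k-step interpolation set (nilsequence form). -/
def IsInterp (k : ℕ) (E : Set ℕ) : Prop :=
  ∀ f : ℕ → ℂ, (∃ C : ℝ, ∀ n ∈ E, ‖f n‖ ≤ C) → ∃ ψ : ℕ → ℂ, IsNilseq k ψ ∧ ∀ n ∈ E, ψ n = f n

/-- S is an interpolation set for inverse limits of k-step nilsystems. -/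
def IsInterpInv (k : ℕ) (S : Set ℕ) : Prop :=
  ∀ f : ℕ → ℂ, (∃ C : ℝ, ∀ n ∈ S, ‖f n‖ ≤ C) →
    ∃ (X : Type) (_ : TopologicalSpace X) (T : X → X) (x : X) (F : X → ℂ),
      IsInvLim k X T ∧ Continuous F ∧ ∀ n ∈ S, F (T^[n] x) = f n

lemma isNilseq_of_NilLie {k : ℕ} {ψ : ℕ → ℂ} (h : NilLie k ψ) : IsNilseq k ψ := by
  intro ε hε
  obtain ⟨ψ', h1, h2⟩ := h ε hε
  exact ⟨ψ', lit_of_lie h1, fun n _ => h2 n⟩

theorem final_seq (hB : TaskB) (k : ℕ) (hk : 1 ≤ k) :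
    ∃ E : Set ℕ, (∀ n ∈ E, 1 ≤ n) ∧ IsInterp (k + 1) E ∧ ¬ IsInterp k E := by
  refine ⟨ES (k + 1), ES_pos (k + 1) (by omega), ?_, ?_⟩
  · rintro f ⟨C, hC⟩
    obtain ⟨ψ, h1, h2⟩ := interp taskA taskLie taskFilt taskDisc taskFun (k + 1) (by omega) f C hC
    exact ⟨ψ, isNilseq_of_NilLie h1, h2⟩
  · intro h
    obtain ⟨f, hf, hf'⟩ := neg_uniform hB k hk
    obtain ⟨ψ, h1, h2⟩ := h f ⟨1, fun n _ => by rcases hf n with e | e <;> rw [e] <;> simp⟩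
    obtain ⟨n, hn, hne⟩ := hf' ψ h1
    exact hne (h2 n hn)

theorem final_inv (hB : TaskB) (h1 : TaskInv1) (h2 : TaskInv2) (k : ℕ) (hk : 1 ≤ k) :
    ∃ S : Set ℕ, (∀ n ∈ S, 1 ≤ n) ∧ IsInterpInv (k + 1) S ∧ ¬ IsInterpInv k S := by
  refine ⟨ES (k + 1), ES_pos (k + 1) (by omega), ?_, ?_⟩
  · rintro f ⟨C, hC⟩
    obtain ⟨Ψ, K, a1, a2, a3⟩ := interp_series taskA taskLie taskFilt taskDisc taskFun (k + 1)
      (by omega) f C hC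
    obtain ⟨X, iX, T, x, F, b1, b2, b3⟩ := h2 (k + 1) Ψ (by omega) (fun j => lit_of_lie (a1 j)) a2 K
    refine ⟨X, iX, T, x, F, b1, b2, fun n hn => ?_⟩
    rw [← b3 n]
    exact a3 n hn
  · intro h
    obtain ⟨f, hf, hf'⟩ := neg_uniform hB k hk
    obtain ⟨X, iX, T, x, F, b1, b2, b3⟩ := h f ⟨1, fun n _ => by rcases hf n with e | e <;> rw [e] <;> simp⟩
    have hs : IsNilseq k (fun n => F (T^[n] x)) := by
      intro ε hε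
      obtain ⟨ψ', c1, c2⟩ := h1 k _ ⟨X, iX, T, x, F, b1, b2, fun _ => rfl⟩ ε hε
      exact ⟨ψ', c1, fun n _ => c2 n⟩
    obtain ⟨n, hn, hne⟩ := hf' _ hs
    exact hne (b3 n hn)

end H514N
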