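import Pool.Agent.H514R4.Lit

/-! `TaskInv2`: geometric series of bounded basic nilsequences are inverse-limit sequences. -/

open scoped Manifold ContDiff Topology

namespace H514N

/-- the quotient of a product of groups by a product of subgroups -/
noncomputable def prodHomeo {G G' : Type} [Group G] [Group G'] [TopologicalSpace G]
    [TopologicalSpace G'] [IsTopologicalGroup G] [IsTopologicalGroup G'] (Γ : Subgroup G)
    (Γ' : Subgroup G') : ((G × G') ⧸ (Γ.prod Γ')) ≃ₜ (G ⧸ Γ) × (G' ⧸ Γ') :=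
  (QuotientGroup.prodEquiv Γ Γ').toHomeomorphOfContinuousOpen
    (by
      rw [← QuotientGroup.isOpenQuotientMap_mk.continuous_comp_iff]
      exact (QuotientGroup.continuous_mk.prodMap QuotientGroup.continuous_mk))
    (by
      intro W hW
      have h1 : IsOpenMap (QuotientGroup.prodEquiv Γ Γ' ∘
          (QuotientGroup.mk : G × G' → (G × G') ⧸ (Γ.prod Γ'))) :=
        (QuotientGroup.isOpenMap_coe.prodMap QuotientGroup.isOpenMap_coe)
      have h2 : QuotientGroup.prodEquiv Γ Γ' '' W = (QuotientGroup.prodEquiv Γ Γ' ∘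
          (QuotientGroup.mk : G × G' → (G × G') ⧸ (Γ.prod Γ'))) ''
          ((QuotientGroup.mk : G × G' → (G × G') ⧸ (Γ.prod Γ')) ⁻¹' W) := by
        rw [Set.image_comp, Set.image_preimage_eq _ QuotientGroup.mk_surjective]
      rw [h2]
      exact h1 _ (hW.preimage QuotientGroup.continuous_mk))

theorem prodHomeo_smul {G G' : Type} [Group G] [Group G'] [TopologicalSpace G]
    [TopologicalSpace G'] [IsTopologicalGroup G] [IsTopologicalGroup G'] (Γ : Subgroup G)
    (Γ' : Subgroup G') (g : G × G') (q : (G × G') ⧸ (Γ.prod Γ')) :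
    prodHomeo Γ Γ' (g • q) = (g.1 • (prodHomeo Γ Γ' q).1, g.2 • (prodHomeo Γ Γ' q).2) := by
  induction q using QuotientGroup.induction_on with
  | H x => rfl

theorem isNilsys_prod {k : ℕ} {X X' : Type} [TopologicalSpace X] [TopologicalSpace X'] {T : X → X}
    {T' : X' → X'} (h : IsNilsys k X T) (h' : IsNilsys k X' T') :
    IsNilsys k (X × X') (Prod.map T T') := by
  obtain ⟨V, _, _, _, G, _, _, _, _, _, Γ, hn, hd, hc, g, e, he⟩ := h
  obtain ⟨V', _, _, _, G', _, _, _, _, _, Γ', hn', hd', hc', g', e', he'⟩ := h'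
  have hT : IsTopologicalGroup G := topologicalGroup_of_lieGroup 𝓘(ℝ, V) ∞
  have hT' : IsTopologicalGroup G' := topologicalGroup_of_lieGroup 𝓘(ℝ, V') ∞
  let cs : ChartedSpace (V × V') (G × G') := prodChartedSpace V G V' G'
  have hL : @LieGroup ℝ _ (V × V') _ (V × V') _ _ 𝓘(ℝ, V × V') ∞ (G × G') _ _ cs := by
    rw [modelWithCornersSelf_prod]
    exact inferInstanceAs (LieGroup (𝓘(ℝ, V).prod 𝓘(ℝ, V')) ∞ (G × G'))
  refine ⟨V × V', inferInstance, inferInstance, inferInstance, G × G', inferInstance,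
    inferInstance, inferInstance, cs, hL, Γ.prod Γ', ?_, ?_, ?_, (g, g'),
    (e.prodCongr e').trans (prodHomeo Γ Γ').symm, ?_⟩
  · rw [Subgroup.top_lowerCentralSeries_prod, hn, hn', Subgroup.bot_prod_bot]
  · refine DiscreteTopology.of_continuous_injective
      (f := fun x : Γ.prod Γ' => ((⟨x.1.1, x.2.1⟩ : Γ), (⟨x.1.2, x.2.2⟩ : Γ'))) ?_ ?_
    · fun_prop
    · intro x y hxy
      have h1 := congrArg (fun z : Γ × Γ' => (z.1 : G)) hxy
      have h2 := congrArg (fun z : Γ × Γ' => (z.2 : G')) hxy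
      exact Subtype.ext (Prod.ext h1 h2)
  · exact (prodHomeo Γ Γ').symm.compactSpace
  · intro x
    apply (prodHomeo Γ Γ').injective
    rw [prodHomeo_smul]
    simp only [Homeomorph.trans_apply, Homeomorph.apply_symm_apply]
    change (e (T x.1), e' (T' x.2)) = (g • e x.1, g' • e' x.2)
    rw [he, he']

/-- a topological space with a self-map -/
structure Sys where
  X : Type
  top : TopologicalSpace X
  T : X → X

attribute [instance] Sys.top

/-- product of the first `n + 1` systems -/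
def PSys (S : ℕ → Sys) : ℕ → Sys
  | 0 => S 0
  | n + 1 => ⟨(PSys S n).X × (S (n + 1)).X, inferInstance, Prod.map (PSys S n).T (S (n + 1)).T⟩

theorem isNilsys_PSys {k : ℕ} (S : ℕ → Sys) (h : ∀ j, IsNilsys k (S j).X (S j).T) (n : ℕ) :
    IsNilsys k (PSys S n).X (PSys S n).T := by
  induction n with
  | zero => exact h 0
  | succ n ih => exact isNilsys_prod ih (h (n + 1))

/-- last coordinate -/
def cd (S : ℕ → Sys) : ∀ n, (PSys S n).X → (S n).X
  | 0 => fun y => y
  | _ + 1 => Prod.snd

theorem cd_continuous (S : ℕ → Sys) (n : ℕ) : Continuous (cd S n) := by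
  cases n with
  | zero => exact continuous_id
  | succ n => exact continuous_snd

theorem cd_T (S : ℕ → Sys) (n : ℕ) (y : (PSys S n).X) :
    cd S n ((PSys S n).T y) = (S n).T (cd S n y) := by
  cases n with
  | zero => rfl
  | succ n => rfl

/-- a point of the product of the first `n + 1` systems -/
def pt (S : ℕ → Sys) (x : ∀ j, (S j).X) : ∀ n, (PSys S n).X
  | 0 => x 0
  | n + 1 => (pt S x n, x (n + 1))

theorem cd_pt (S : ℕ → Sys) (x : ∀ j, (S j).X) (n : ℕ) : cd S n (pt S x n) = x n := by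
  cases n with
  | zero => rfl
  | succ n => rfl

/-- projection -/
def pr (S : ℕ → Sys) (n : ℕ) : (PSys S (n + 1)).X → (PSys S n).X := Prod.fst

/-- the inverse limit -/
def IL (S : ℕ → Sys) : Type := {y : ∀ i, (PSys S i).X // ∀ i, pr S i (y (i + 1)) = y i}

instance (S : ℕ → Sys) : TopologicalSpace (IL S) :=
  inferInstanceAs (TopologicalSpace {y : ∀ i, (PSys S i).X // ∀ i, pr S i (y (i + 1)) = y i})

/-- the map on the inverse limit -/
def TL (S : ℕ → Sys) (y : IL S) : IL S :=
  ⟨fun i => (PSys S i).T (y.1 i), fun i => congrArg (PSys S i).T (y.2 i)⟩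

theorem TL_iter (S : ℕ → Sys) (y : IL S) (n i : ℕ) :
    ((TL S)^[n] y).1 i = ((PSys S i).T)^[n] (y.1 i) := by
  induction n with
  | zero => rfl
  | succ n ih => rw [Function.iterate_succ_apply', Function.iterate_succ_apply', ← ih]; rfl

theorem isInvLim (k : ℕ) (S : ℕ → Sys) (h : ∀ j, IsNilsys k (S j).X (S j).T)
    (x : ∀ j, (S j).X) : IsInvLim k (IL S) (TL S) := by
  refine ⟨fun i => (PSys S i).X, fun i => inferInstance, fun i => (PSys S i).T, pr S,
    isNilsys_PSys S h, fun i => ⟨continuous_fst, ?_, fun y => rfl⟩, Homeomorph.refl _,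
    fun y i => rfl⟩
  intro y
  exact ⟨(y, x (i + 1)), rfl⟩

theorem cd_iter (S : ℕ → Sys) (n j : ℕ) (y : (PSys S j).X) :
    cd S j (((PSys S j).T)^[n] y) = ((S j).T)^[n] (cd S j y) := by
  induction n with
  | zero => rfl
  | succ n ih => rw [Function.iterate_succ_apply', Function.iterate_succ_apply', cd_T, ih]

theorem taskInv2 : TaskInv2 := by
  intro k Ψ hk hΨ hb K
  choose V i1 i2 i3 G i4 i5 i6 i7 i8 Γ hn hd hc F g x hF hψ using hΨ
  let S : ℕ → Sys := fun j => ⟨G j ⧸ Γ j, inferInstance, fun y => g j • y⟩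
  have hS : ∀ j, IsNilsys k (S j).X (S j).T := fun j =>
    ⟨V j, i1 j, i2 j, i3 j, G j, i4 j, i5 j, i6 j, i7 j, i8 j, Γ j, hn j, hd j, hc j, g j,
      Homeomorph.refl _, fun y => rfl⟩
  let F' : ∀ j, (S j).X → ℂ := fun j y => F j y / ((max 1 ‖F j y‖ : ℝ) : ℂ)
  have hF'c : ∀ j, Continuous (F' j) := by
    intro j
    refine (hF j).div ?_ ?_
    · exact Complex.continuous_ofReal.comp (continuous_const.max (hF j).norm)
    · intro y h0
      have h1 : (max 1 ‖F j y‖ : ℝ) = 0 := by exact_mod_cast h0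
      have h2 : (1 : ℝ) ≤ max 1 ‖F j y‖ := le_max_left _ _
      linarith
  have hF'b : ∀ j y, ‖F' j y‖ ≤ 1 := by
    intro j y
    have h2 : (1 : ℝ) ≤ max 1 ‖F j y‖ := le_max_left _ _
    change ‖F j y / ((max 1 ‖F j y‖ : ℝ) : ℂ)‖ ≤ 1
    rw [norm_div, Complex.norm_real, Real.norm_eq_abs, abs_of_nonneg (by linarith),
      div_le_one (by linarith)]
    exact le_max_right _ _
  have hF'e : ∀ j y, ‖F j y‖ ≤ 1 → F' j y = F j y := by
    intro j y h1
    change F j y / ((max 1 ‖F j y‖ : ℝ) : ℂ) = F j y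
    rw [max_eq_left h1, Complex.ofReal_one, div_one]
  refine ⟨IL S, inferInstance, TL S, ⟨pt S x, fun i => rfl⟩,
    fun y => K * ∑' j, (3 / 4 : ℂ) ^ j * F' j (cd S j (y.1 j)), isInvLim k S hS x, ?_, ?_⟩
  · refine continuous_const.mul ?_
    refine continuous_tsum (u := fun j => (3 / 4 : ℝ) ^ j) ?_
      (summable_geometric_of_lt_one (by norm_num) (by norm_num)) ?_
    · intro j
      refine continuous_const.mul ?_
      exact (hF'c j).comp ((cd_continuous S j).comp ((continuous_apply j).comp continuous_subtype_val))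
    · intro j y
      rw [norm_mul, norm_pow]
      have h1 : ‖(3 / 4 : ℂ)‖ = 3 / 4 := by norm_num
      rw [h1]
      exact mul_le_of_le_one_right (by positivity) (hF'b j _)
  · intro n
    simp only
    congr 1
    refine tsum_congr fun j => ?_
    congr 1
    rw [TL_iter, cd_iter]
    have h1 : cd S j ((⟨pt S x, fun i => rfl⟩ : IL S).1 j) = x j := cd_pt S x j
    rw [h1]
    have h2 : ((S j).T)^[n] (x j) = g j ^ n • x j := smul_iterate_apply (g j) n (x j)
    rw [h2]
    have h3 : Ψ j n = F j (g j ^ n • x j) := hψ j n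
    rw [h3]
    exact (hF'e j _ (by rw [← h3]; exact hb j n)).symm

end H514N
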