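import Pool.Agent.H514R4.Stmts

/-! Closure properties of basic nilsequences. -/

open scoped Manifold ContDiff Topology

namespace H514N

lemma lcs_of_filt {G : Type} [Group G] (H : ℕ → Subgroup G) (h1 : H 1 = ⊤)
    (hc : ∀ i j, ⁅H i, H j⁆ ≤ H (i + j)) (n : ℕ) :
    (⊤ : Subgroup G).lowerCentralSeries n ≤ H (n + 1) := by
  induction n with
  | zero => rw [Subgroup.lowerCentralSeries_zero, h1]
  | succ n ih =>
    rw [Subgroup.lowerCentralSeries_succ]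
    refine le_trans (Subgroup.commutator_mono ih (le_of_eq h1.symm)) ?_
    exact hc (n + 1) 1

lemma filt_prod {G₁ G₂ : Type} [Group G₁] [TopologicalSpace G₁] [Group G₂] [TopologicalSpace G₂]
    {Γ₁ : Subgroup G₁} {Γ₂ : Subgroup G₂} {k : ℕ} (h₁ : FiltNil G₁ Γ₁ k) (h₂ : FiltNil G₂ Γ₂ k) :
    FiltNil (G₁ × G₂) (Γ₁.prod Γ₂) k := by
  obtain ⟨H, a0, a1, ak, aa, ac, aC⟩ := h₁
  obtain ⟨L, b0, b1, bk, ba, bc, bC⟩ := h₂
  refine ⟨fun i => (H i).prod (L i), ?_, ?_, ?_, ?_, ?_, ?_⟩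
  · simp only [a0, b0, Subgroup.top_prod_top]
  · simp only [a1, b1, Subgroup.top_prod_top]
  · simp only [ak, bk, Subgroup.bot_prod_bot]
  · intro i j hij
    exact Subgroup.prod_mono (aa hij) (ba hij)
  · intro i j
    rw [Subgroup.commutator_prod_prod]
    exact Subgroup.prod_mono (ac i j) (bc i j)
  · intro i
    obtain ⟨C, c1, c2, c3⟩ := aC i
    obtain ⟨K, k1, k2, k3⟩ := bC i
    refine ⟨C ×ˢ K, c1.prod k1, ?_, ?_⟩
    · rintro ⟨x, y⟩ ⟨hx, hy⟩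
      exact ⟨c2 hx, k2 hy⟩
    · rintro ⟨x, y⟩ ⟨hx, hy⟩
      obtain ⟨c, hc, hc'⟩ := c3 x hx
      obtain ⟨e, he, he'⟩ := k3 y hy
      exact ⟨(c, e), ⟨hc, he⟩, ⟨hc', he'⟩⟩

lemma disc_prod {G₁ G₂ : Type} [Group G₁] [TopologicalSpace G₁] [Group G₂] [TopologicalSpace G₂]
    {Γ₁ : Subgroup G₁} {Γ₂ : Subgroup G₂} (h₁ : DiscreteTopology Γ₁) (h₂ : DiscreteTopology Γ₂) :
    DiscreteTopology (Γ₁.prod Γ₂) := by
  let e : (Γ₁.prod Γ₂) → Γ₁ × Γ₂ := fun p => (⟨p.1.1, p.2.1⟩, ⟨p.1.2, p.2.2⟩)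
  have hcont : Continuous e := by
    refine Continuous.prodMk ?_ ?_
    · exact Continuous.subtype_mk (continuous_fst.comp continuous_subtype_val) _
    · exact Continuous.subtype_mk (continuous_snd.comp continuous_subtype_val) _
  have hinj : Function.Injective e := by
    intro p p' h
    have h1 := congrArg (fun z : Γ₁ × Γ₂ => (z.1 : G₁)) h
    have h2 := congrArg (fun z : Γ₁ × Γ₂ => (z.2 : G₂)) h
    exact Subtype.ext (Prod.ext h1 h2)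
  exact DiscreteTopology.of_continuous_injective hcont hinj

lemma basic_add {k : ℕ} {ψ₁ ψ₂ : ℕ → ℂ} (h₁ : BasicLie k ψ₁) (h₂ : BasicLie k ψ₂) :
    BasicLie k (fun n => ψ₁ n + ψ₂ n) := by
  obtain ⟨V₁, i1, i2, i3, G₁, j1, j2, j3, j4, j5, Γ₁, l1, d1, f1, F₁, g₁, x₁, c1, r1, e1⟩ := h₁
  obtain ⟨V₂, i1', i2', i3', G₂, j1', j2', j3', j4', j5', Γ₂, l2, d2, f2, F₂, g₂, x₂, c2, r2, e2⟩ := h₂
  have hf := filt_prod f1 f2
  refine ⟨V₁ × V₂, inferInstance, inferInstance, inferInstance, G₁ × G₂, inferInstance, inferInstance,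
    inferInstance, inferInstanceAs (ChartedSpace (ModelProd V₁ V₂) (G₁ × G₂)), ?_, Γ₁.prod Γ₂, ?_,
    disc_prod d1 d2, hf, fun p => F₁ p.1 + F₂ p.2, (g₁, g₂), (x₁, x₂), ?_, ?_, ?_⟩
  · rw [modelWithCornersSelf_prod]
    exact inferInstanceAs (LieGroup (𝓘(ℝ, V₁).prod 𝓘(ℝ, V₂)) ∞ (G₁ × G₂))
  · obtain ⟨H, -, h1, hk, -, hc, -⟩ := hf
    exact le_bot_iff.1 (hk ▸ lcs_of_filt H h1 hc k)
  · exact (c1.comp continuous_fst).add (c2.comp continuous_snd)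
  · rintro ⟨y, y'⟩ ⟨γ, γ'⟩ hγ
    show F₁ (y * γ) + F₂ (y' * γ') = F₁ y + F₂ y'
    rw [r1 y γ hγ.1, r2 y' γ' hγ.2]
  · intro n
    show ψ₁ n + ψ₂ n = F₁ (((g₁, g₂) ^ n * (x₁, x₂) : G₁ × G₂)).1 + F₂ (((g₁, g₂) ^ n * (x₁, x₂) : G₁ × G₂)).2
    rw [Prod.fst_mul, Prod.snd_mul, Prod.pow_fst, Prod.pow_snd, e1, e2]

lemma basic_smul {k : ℕ} {ψ : ℕ → ℂ} (c : ℂ) (h : BasicLie k ψ) : BasicLie k (fun n => c * ψ n) := by
  obtain ⟨V₁, i1, i2, i3, G₁, j1, j2, j3, j4, j5, Γ₁, l1, d1, f1, F₁, g₁, x₁, c1, r1, e1⟩ := h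
  refine ⟨V₁, i1, i2, i3, G₁, j1, j2, j3, j4, j5, Γ₁, l1, d1, f1, fun y => c * F₁ y, g₁, x₁,
    continuous_const.mul c1, ?_, ?_⟩
  · intro y γ hγ
    show c * F₁ (y * γ) = c * F₁ y
    rw [r1 y γ hγ]
  · intro n
    show c * ψ n = c * F₁ (g₁ ^ n * x₁)
    rw [e1]

end H514N
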