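import Pool.Agent.H514R4.PosA

/-! From the polynomial approximation to exact interpolation. -/

open scoped Manifold ContDiff Topology

namespace H514N

/-- the set of sums of D distinct terms of q D -/
def ES (D : ℕ) : Set ℕ := {n | ∃ S : Finset ℕ, S.card = D ∧ n = ∑ i ∈ S, q D i}

/-- plateau function with values in [-1/2, 1/2] -/
noncomputable def plat (x : ℝ) : ℝ := max 0 (min 1 (1 / 2 - Real.cos (2 * Real.pi * x))) - 1 / 2

lemma plat_cont : Continuous plat := by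
  unfold plat
  fun_prop

lemma plat_per (x : ℝ) : plat (x + 1) = plat x := by
  unfold plat
  rw [show 2 * Real.pi * (x + 1) = 2 * Real.pi * x + 2 * Real.pi by ring, Real.cos_add_two_pi]

lemma plat_abs (x : ℝ) : |plat x| ≤ 1 / 2 := by
  unfold plat
  rw [abs_le]
  constructor
  · linarith [le_max_left (0 : ℝ) (min 1 (1 / 2 - Real.cos (2 * Real.pi * x)))]
  · have : max 0 (min 1 (1 / 2 - Real.cos (2 * Real.pi * x))) ≤ 1 :=
      max_le (by norm_num) (min_le_left _ _)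
    linarith

lemma cos_ge (y : ℝ) (z : ℤ) (h : |y - z| ≤ 1 / 8) : 1 / 2 ≤ Real.cos (2 * Real.pi * y) := by
  have h1 : Real.cos (2 * Real.pi * y) = Real.cos (2 * Real.pi * |y - z|) := by
    have h2 : 2 * Real.pi * |y - z| = |2 * Real.pi * (y - z)| := by
      rw [abs_mul, abs_of_pos (by positivity : (0 : ℝ) < 2 * Real.pi)]
    rw [h2, Real.cos_abs, show 2 * Real.pi * (y - z) = 2 * Real.pi * y - z * (2 * Real.pi) by ring,
      Real.cos_sub_int_mul_two_pi]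
  rw [h1, ← Real.cos_pi_div_three]
  apply Real.cos_le_cos_of_nonneg_of_le_pi
  · positivity
  · linarith [Real.pi_pos]
  · nlinarith [Real.pi_pos, abs_nonneg (y - z)]

lemma plat_zero (x : ℝ) (z : ℤ) (h : |x - 0 - z| ≤ 1 / 8) : plat x = - (1 / 2) := by
  have := cos_ge x z (by simpa using h)
  unfold plat
  rw [max_eq_left]
  · ring
  · exact le_trans (min_le_right _ _) (by linarith)

lemma plat_half (x : ℝ) (z : ℤ) (h : |x - 1 / 2 - z| ≤ 1 / 8) : plat x = 1 / 2 := by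
  have h1 := cos_ge (x - 1 / 2) z h
  have h2 : Real.cos (2 * Real.pi * (x - 1 / 2)) = - Real.cos (2 * Real.pi * x) := by
    rw [show 2 * Real.pi * (x - 1 / 2) = 2 * Real.pi * x - Real.pi by ring, Real.cos_sub_pi]
  rw [h2] at h1
  unfold plat
  rw [min_eq_left (by linarith), max_eq_right (by norm_num)]
  ring

/-- uniform limits of basic nilsequences -/
def NilLie (k : ℕ) (ψ : ℕ → ℂ) : Prop :=
  ∀ ε : ℝ, 0 < ε → ∃ ψ' : ℕ → ℂ, BasicLie k ψ' ∧ ∀ n, ‖ψ n - ψ' n‖ ≤ ε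

lemma sign_basic (hA : TaskA) (hL : TaskLie) (hF : TaskFilt) (hD : TaskDisc) (hX : TaskFun)
    (D : ℕ) (hD1 : 1 ≤ D) (b : ℕ → Prop) :
    ∃ ψ : ℕ → ℂ, BasicLie D ψ ∧ (∀ n, ‖ψ n‖ ≤ 1 / 2) ∧
      (∀ n ∈ ES D, b n → ψ n = 1 / 2) ∧ (∀ n ∈ ES D, ¬ b n → ψ n = - (1 / 2)) := by
  classical
  obtain ⟨α, hα⟩ := hA D (fun S => if b (∑ i ∈ S, q D i) then 1 / 2 else 0)
  obtain ⟨Ft, g, c1, c2, c3⟩ := hX D α (fun x => ((plat x : ℝ) : ℂ)) hD1
    (Complex.continuous_ofReal.comp plat_cont) (fun x => by rw [plat_per])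
  have hfilt := hF D hD1
  refine ⟨fun n => Ft (g ^ n), ⟨ℝ × (Fin D → ℝ), inferInstance, inferInstance, inferInstance, NG D,
    inferInstance, inferInstance, inferInstanceAs (T2Space (ℝ × (Fin D → ℝ))), inferInstance, hL D,
    NGam D, ?_, hD D, hfilt, Ft, g, 1, c1, c2, fun n => by rw [mul_one]⟩, ?_, ?_, ?_⟩
  · obtain ⟨H, -, h1, hk, -, hc, -⟩ := hfilt
    exact le_bot_iff.1 (hk ▸ lcs_of_filt H h1 hc D)
  · intro n
    show ‖Ft (g ^ n)‖ ≤ 1 / 2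
    rw [c3, Complex.norm_real]
    exact plat_abs _
  · rintro n ⟨S, hS, rfl⟩ hb
    obtain ⟨z, hz⟩ := hα S hS
    simp only [if_pos hb] at hz
    show Ft (g ^ _) = _
    rw [c3, plat_half _ z hz]
    norm_num
  · rintro n ⟨S, hS, rfl⟩ hb
    obtain ⟨z, hz⟩ := hα S hS
    simp only [if_neg hb] at hz
    show Ft (g ^ _) = _
    rw [c3, plat_zero _ z hz]
    norm_num

lemma approx_step (hA : TaskA) (hL : TaskLie) (hF : TaskFilt) (hD : TaskDisc) (hX : TaskFun)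
    (D : ℕ) (hD1 : 1 ≤ D) (f : ℕ → ℂ) :
    ∃ ψ : ℕ → ℂ, BasicLie D ψ ∧ (∀ n, ‖ψ n‖ ≤ 1) ∧
      ((∀ n ∈ ES D, ‖f n‖ ≤ 1) → ∀ n ∈ ES D, ‖f n - ψ n‖ ≤ 3 / 4) := by
  obtain ⟨ψ₁, b1, n1, p1, m1⟩ := sign_basic hA hL hF hD hX D hD1 (fun n => 0 ≤ (f n).re)
  obtain ⟨ψ₂, b2, n2, p2, m2⟩ := sign_basic hA hL hF hD hX D hD1 (fun n => 0 ≤ (f n).im)
  refine ⟨fun n => ψ₁ n + Complex.I * ψ₂ n, basic_add b1 (basic_smul _ b2), ?_, ?_⟩
  · intro n
    calc ‖ψ₁ n + Complex.I * ψ₂ n‖ ≤ ‖ψ₁ n‖ + ‖Complex.I * ψ₂ n‖ := norm_add_le _ _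
      _ = ‖ψ₁ n‖ + ‖ψ₂ n‖ := by rw [norm_mul, Complex.norm_I, one_mul]
      _ ≤ 1 / 2 + 1 / 2 := add_le_add (n1 n) (n2 n)
      _ = 1 := by norm_num
  · intro hf n hn
    have hre : |(f n).re| ≤ 1 := le_trans (Complex.abs_re_le_norm _) (hf n hn)
    have him : |(f n).im| ≤ 1 := le_trans (Complex.abs_im_le_norm _) (hf n hn)
    have key : ∀ (x : ℝ) (y : ℂ), |x| ≤ 1 → (0 ≤ x → y = 1 / 2) → (¬ 0 ≤ x → y = -(1 / 2)) →
        ∃ s : ℝ, (y = s) ∧ |x - s| ≤ 1 / 2 := by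
      intro x y hx hp hm
      rw [abs_le] at hx
      by_cases h0 : 0 ≤ x
      · refine ⟨1 / 2, by rw [hp h0]; norm_num, ?_⟩
        rw [abs_le]; constructor <;> linarith [hx.1, hx.2]
      · refine ⟨-(1 / 2), by rw [hm h0]; norm_num, ?_⟩
        rw [not_le] at h0
        rw [abs_le]; constructor <;> linarith [hx.1, hx.2]
    obtain ⟨s, hs, hs'⟩ := key _ _ hre (p1 n hn) (m1 n hn)
    obtain ⟨t, ht, ht'⟩ := key _ _ him (p2 n hn) (m2 n hn)
    show ‖f n - (ψ₁ n + Complex.I * ψ₂ n)‖ ≤ 3 / 4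
    rw [hs, ht]
    have h1 : ‖f n - ((s : ℂ) + Complex.I * t)‖ ^ 2 = ((f n).re - s) ^ 2 + ((f n).im - t) ^ 2 := by
      rw [← Complex.normSq_eq_norm_sq, Complex.normSq_apply]
      simp
      ring
    have h2 : ((f n).re - s) ^ 2 ≤ (1 / 2) ^ 2 := by
      rw [← sq_abs]; exact pow_le_pow_left₀ (abs_nonneg _) hs' 2
    have h3 : ((f n).im - t) ^ 2 ≤ (1 / 2) ^ 2 := by
      rw [← sq_abs]; exact pow_le_pow_left₀ (abs_nonneg _) ht' 2
    have h4 : ‖f n - ((s : ℂ) + Complex.I * t)‖ ^ 2 ≤ (3 / 4) ^ 2 := by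
      rw [h1]; norm_num at h2 h3 ⊢; linarith
    exact le_of_sq_le_sq h4 (by norm_num) |> fun h => h

lemma basic_sum {k : ℕ} (a : ℕ → ℂ) (Ψ : ℕ → ℕ → ℂ) (h : ∀ j, BasicLie k (Ψ j)) (J : ℕ) :
    BasicLie k (fun n => ∑ j ∈ Finset.range J, a j * Ψ j n) := by
  induction J with
  | zero =>
    have := basic_smul 0 (h 0)
    simpa using this
  | succ J ih =>
    have := basic_add ih (basic_smul (a J) (h J))
    simpa [Finset.sum_range_succ] using this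

lemma interp (hA : TaskA) (hL : TaskLie) (hF : TaskFilt) (hD : TaskDisc) (hX : TaskFun)
    (D : ℕ) (hD1 : 1 ≤ D) (f : ℕ → ℂ) (C : ℝ) (hC : ∀ n ∈ ES D, ‖f n‖ ≤ C) :
    ∃ ψ : ℕ → ℂ, NilLie D ψ ∧ ∀ n ∈ ES D, ψ n = f n := by
  choose Ψ hB hN hE using fun f : ℕ → ℂ => approx_step hA hL hF hD hX D hD1 f
  set K : ℝ := max C 1 with hK
  have hK1 : 1 ≤ K := le_max_right _ _
  have hK0 : (K : ℂ) ≠ 0 := by
    exact_mod_cast (by linarith : K ≠ 0)
  let F : ℕ → (ℕ → ℂ) := fun j => Nat.rec (fun n => f n / K) (fun _ u => fun n => (4 / 3) * (u n - Ψ u n)) j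
  have F0 : F 0 = fun n => f n / K := rfl
  have FS : ∀ j, F (j + 1) = fun n => (4 / 3) * (F j n - Ψ (F j) n) := fun j => rfl
  have hbd : ∀ j, ∀ n ∈ ES D, ‖F j n‖ ≤ 1 := by
    intro j
    induction j with
    | zero =>
      intro n hn
      rw [F0]
      show ‖f n / K‖ ≤ 1
      rw [norm_div, Complex.norm_real, Real.norm_of_nonneg (by linarith), div_le_one (by linarith)]
      exact le_trans (hC n hn) (le_max_left _ _)
    | succ j ih =>
      intro n hn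
      rw [FS]
      show ‖(4 / 3 : ℂ) * (F j n - Ψ (F j) n)‖ ≤ 1
      rw [norm_mul]
      have h1 := hE (F j) ih n hn
      have h2 : ‖(4 / 3 : ℂ)‖ = 4 / 3 := by norm_num
      rw [h2]
      linarith
  have hsum : ∀ n J, F 0 n - ∑ j ∈ Finset.range J, (3 / 4 : ℂ) ^ j * Ψ (F j) n = (3 / 4) ^ J * F J n := by
    intro n J
    induction J with
    | zero => simp
    | succ J ih =>
      rw [Finset.sum_range_succ, ← sub_sub, ih, FS]
      show _ = (3 / 4 : ℂ) ^ (J + 1) * ((4 / 3) * (F J n - Ψ (F J) n))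
      ring
  have hsumm : ∀ n, Summable (fun j => (3 / 4 : ℂ) ^ j * Ψ (F j) n) := by
    intro n
    refine Summable.of_norm_bounded (g := fun j => (3 / 4 : ℝ) ^ j)
      (summable_geometric_of_lt_one (by norm_num) (by norm_num)) ?_
    intro j
    rw [norm_mul, norm_pow]
    have : ‖(3 / 4 : ℂ)‖ = 3 / 4 := by norm_num
    rw [this]
    calc (3 / 4 : ℝ) ^ j * ‖Ψ (F j) n‖ ≤ (3 / 4 : ℝ) ^ j * 1 :=
          mul_le_mul_of_nonneg_left (hN _ _) (by positivity)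
      _ = _ := mul_one _
  refine ⟨fun n => K * ∑' j, (3 / 4 : ℂ) ^ j * Ψ (F j) n, ?_, ?_⟩
  · intro ε hε
    obtain ⟨J, hJ⟩ := exists_pow_lt_of_lt_one (show (0 : ℝ) < ε / (4 * K) by positivity)
      (show (3 / 4 : ℝ) < 1 by norm_num)
    refine ⟨fun n => K * ∑ j ∈ Finset.range J, (3 / 4 : ℂ) ^ j * Ψ (F j) n,
      basic_smul _ (basic_sum (fun j => (3 / 4 : ℂ) ^ j) (fun j => Ψ (F j)) (fun j => hB _) J), ?_⟩
    intro n
    show ‖(K : ℂ) * _ - K * _‖ ≤ ε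
    rw [← mul_sub, norm_mul, Complex.norm_real, Real.norm_of_nonneg (by linarith)]
    have h1 : ∑' j, (3 / 4 : ℂ) ^ j * Ψ (F j) n - ∑ j ∈ Finset.range J, (3 / 4 : ℂ) ^ j * Ψ (F j) n =
        ∑' j, (3 / 4 : ℂ) ^ (j + J) * Ψ (F (j + J)) n := by
      rw [← (hsumm n).sum_add_tsum_nat_add J]
      ring
    rw [h1]
    have h2 : ‖∑' j, (3 / 4 : ℂ) ^ (j + J) * Ψ (F (j + J)) n‖ ≤ ∑' j : ℕ, (3 / 4 : ℝ) ^ J * (3 / 4 : ℝ) ^ j := by
      refine tsum_of_norm_bounded ((summable_geometric_of_lt_one (by norm_num) (by norm_num)).mul_left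
        _).hasSum ?_
      intro j
      rw [norm_mul, norm_pow]
      have : ‖(3 / 4 : ℂ)‖ = 3 / 4 := by norm_num
      rw [this]
      calc (3 / 4 : ℝ) ^ (j + J) * ‖Ψ (F (j + J)) n‖ ≤ (3 / 4 : ℝ) ^ (j + J) * 1 :=
            mul_le_mul_of_nonneg_left (hN _ _) (by positivity)
        _ = _ := by rw [mul_one, pow_add]; ring
    rw [tsum_mul_left, tsum_geometric_of_lt_one (by norm_num) (by norm_num)] at h2
    have h3 : (1 - 3 / 4 : ℝ)⁻¹ = 4 := by norm_num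
    rw [h3] at h2
    calc K * ‖∑' j, (3 / 4 : ℂ) ^ (j + J) * Ψ (F (j + J)) n‖ ≤ K * ((3 / 4 : ℝ) ^ J * 4) :=
          mul_le_mul_of_nonneg_left h2 (by linarith)
      _ ≤ K * (ε / (4 * K) * 4) := by
          apply mul_le_mul_of_nonneg_left _ (by linarith)
          exact mul_le_mul_of_nonneg_right hJ.le (by norm_num)
      _ = ε := by field_simp
  · intro n hn
    have h1 : Filter.Tendsto (fun J => ∑ j ∈ Finset.range J, (3 / 4 : ℂ) ^ j * Ψ (F j) n) Filter.atTop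
        (𝓝 (∑' j, (3 / 4 : ℂ) ^ j * Ψ (F j) n)) := (hsumm n).hasSum.tendsto_sum_nat
    have h2 : Filter.Tendsto (fun J => ∑ j ∈ Finset.range J, (3 / 4 : ℂ) ^ j * Ψ (F j) n) Filter.atTop
        (𝓝 (F 0 n)) := by
      have h3 : ∀ J, ∑ j ∈ Finset.range J, (3 / 4 : ℂ) ^ j * Ψ (F j) n = F 0 n - (3 / 4) ^ J * F J n := by
        intro J; rw [← hsum n J]; ring
      simp_rw [h3]
      have h4 : Filter.Tendsto (fun J => (3 / 4 : ℂ) ^ J * F J n) Filter.atTop (𝓝 0) := by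
        rw [tendsto_zero_iff_norm_tendsto_zero]
        refine squeeze_zero (fun _ => norm_nonneg _) (g := fun J => (3 / 4 : ℝ) ^ J) ?_
          (tendsto_pow_atTop_nhds_zero_of_lt_one (by norm_num) (by norm_num))
        intro J
        rw [norm_mul, norm_pow]
        have : ‖(3 / 4 : ℂ)‖ = 3 / 4 := by norm_num
        rw [this]
        calc (3 / 4 : ℝ) ^ J * ‖F J n‖ ≤ (3 / 4 : ℝ) ^ J * 1 :=
              mul_le_mul_of_nonneg_left (hbd J n hn) (by positivity)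
          _ = _ := mul_one _
      simpa using tendsto_const_nhds.sub h4
    have h5 := tendsto_nhds_unique h1 h2
    show (K : ℂ) * _ = f n
    rw [h5, F0]
    field_simp

end H514N
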