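import Pool.Agent.H514R4.Base

/-! Task statements of project H514-NIL. A volunteer proves `theorem taskX : TaskX` in a file of their own. -/

open scoped Manifold ContDiff Topology

namespace H514N

/-- basic nilsequence of degree k (topological groups) -/
def BasicTop (k : ℕ) (ψ : ℕ → ℂ) : Prop :=
  ∃ (G : Type) (_ : Group G) (_ : TopologicalSpace G) (_ : IsTopologicalGroup G) (Γ : Subgroup G),
    FiltNil G Γ k ∧ ∃ (F : G → ℂ) (g x : G), Continuous F ∧ (∀ y, ∀ γ ∈ Γ, F (y * γ) = F y) ∧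
      ∀ n : ℕ, ψ n = F (g ^ n * x)

/-- basic nilsequence of degree k (Lie groups of class at most k, discrete cocompact subgroup) -/
def BasicLie (k : ℕ) (ψ : ℕ → ℂ) : Prop :=
  ∃ (V : Type) (_ : NormedAddCommGroup V) (_ : NormedSpace ℝ V) (_ : FiniteDimensional ℝ V)
    (G : Type) (_ : Group G) (_ : TopologicalSpace G) (_ : T2Space G) (_ : ChartedSpace V G)
    (_ : LieGroup 𝓘(ℝ, V) ∞ G) (Γ : Subgroup G),
    (⊤ : Subgroup G).lowerCentralSeries k = ⊥ ∧ DiscreteTopology Γ ∧ FiltNil G Γ k ∧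
    ∃ (F : G → ℂ) (g x : G), Continuous F ∧ (∀ y, ∀ γ ∈ Γ, F (y * γ) = F y) ∧
      ∀ n : ℕ, ψ n = F (g ^ n * x)

def TaskA : Prop := ∀ (D : ℕ) (φ : Finset ℕ → ℝ), ∃ α : ℝ, ∀ S : Finset ℕ, S.card = D →
  ∃ z : ℤ, |α * ((∑ i ∈ S, q D i : ℕ) : ℝ) ^ D - φ S - z| ≤ 1 / 8

def TaskInj : Prop := ∀ D : ℕ, Function.Injective (fun S : Finset ℕ => ∑ i ∈ S, q D i)

def TaskC : Prop := ∀ (G : Type) [Group G] (H : ℕ → Subgroup G) (Γ : Subgroup G) (C : ℕ → Set G),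
  H 0 = ⊤ → H 1 = ⊤ → Antitone H → (∀ i j, ⁅H i, H j⁆ ≤ H (i + j)) →
  (∀ i, C i ⊆ (H i : Set G)) → (∀ i, ∀ x ∈ H i, ∃ c ∈ C i, c⁻¹ * x ∈ Γ) →
  ∃ κ : List G → G, (∀ l, κ l ∈ C l.length) ∧
    ∀ l : List G, ∃ γ ∈ Γ, l.reverse.prod = ((l.sublists').map κ).prod * γ

def TaskU : Prop := ∀ (G : Type) [Group G] [TopologicalSpace G] [IsTopologicalGroup G] (K : Set G)
  (F : G → ℂ) (M : ℕ) (ε : ℝ), IsCompact K → Continuous F → 0 < ε →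
  ∃ (m : ℕ) (χ : G → Fin m), ∀ X Y : Fin M → G, (∀ i, X i ∈ K) → (∀ i, Y i ∈ K) →
    (∀ i, χ (X i) = χ (Y i)) → ‖F (List.ofFn X).prod - F (List.ofFn Y).prod‖ < ε

def TaskCount : Prop := ∀ k m : ℕ, 1 ≤ k → ∃ N : ℕ, 1 ≤ N ∧
  ∀ (I : Type) (ρ : I → (Fin k → Fin N) → Bool) (V : I → (Fin k → Fin N) → Finset (Fin k) → Fin m),
    Function.Surjective ρ → (∀ i b b' J, (∀ j ∈ J, b j = b' j) → V i b J = V i b' J) →
    ∃ i i' b, ρ i b ≠ ρ i' b ∧ ∀ J, J ≠ Finset.univ → V i b J = V i' b J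

def TaskLie : Prop := ∀ d : ℕ, LieGroup 𝓘(ℝ, ℝ × (Fin d → ℝ)) ∞ (NG d)

def TaskFilt : Prop := ∀ d : ℕ, 1 ≤ d → FiltNil (NG d) (NGam d) d

def TaskDisc : Prop := ∀ d : ℕ, DiscreteTopology (NGam d)

def TaskFun : Prop := ∀ (d : ℕ) (α : ℝ) (F : ℝ → ℂ), 1 ≤ d → Continuous F →
  (∀ x, F (x + 1) = F x) → ∃ (Ft : NG d → ℂ) (g : NG d), Continuous Ft ∧
    (∀ y, ∀ γ ∈ NGam d, Ft (y * γ) = Ft y) ∧ ∀ n : ℕ, Ft (g ^ n) = F (α * (n : ℝ) ^ d)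

end H514N
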